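import Pool.Agent.Helper77.EX.Data

/-!
Kernel evaluation of the check of the table of triangles, first part.
-/

namespace Pool.Agent.Helper77.EX

set_option maxRecDepth 100000

theorem chk6 : allF (chkI (2 * 6) PF6 PR6 []) 0 14 = true := by decide +kernel

theorem chk9_0 : allF (chkI (2 * 9) PF9 PR9 TB9) 0 27 = true := by decide +kernel

theorem chk9_1 : allF (chkI (2 * 9) PF9 PR9 TB9) 27 27 = true := by decide +kernel

end Pool.Agent.Helper77.EX
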