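import Pool.Agent.Helper77.EX.Data

/-!
Kernel evaluation of the check of the table of triangles, second part, and of the check of
cliques.
-/

namespace Pool.Agent.Helper77.EX

set_option maxRecDepth 100000

theorem chk9_2 : allF (chkI (2 * 9) PF9 PR9 TB9) 54 27 = true := by decide +kernel

theorem chk9_3 : allF (chkI (2 * 9) PF9 PR9 TB9) 81 27 = true := by decide +kernel

theorem clq9 : allF (cliqA TB9 U9) 0 108 = true := by decide +kernel

end Pool.Agent.Helper77.EX
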