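import Pool.Agent.Helper77.EX.Kern2

/-!
Tables for the colouring of the last six and of the last nine positions: codes of pairs, the
triangles of codes, and a set of pairs of codes separating the lower from the upper edges of
cliques of size four.
-/

namespace Pool.Agent.Helper77.EX

/-- Codes of pairs, six positions. -/
def PF6 : List (List ℕ) :=
  [[0, 0, 2, 6, 6, 6], [0, 0, 2, 2, 8, 8], [0, 0, 2, 2, 2, 10], [1, 2, 2, 2, 6, 6],
   [0, 0, 0, 2, 2, 10], [1, 2, 2, 2, 2, 8], [0, 0, 4, 4, 6, 6], [1, 3, 4, 4, 4, 6],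
   [0, 0, 0, 0, 4, 10], [0, 0, 0, 0, 6, 10], [1, 2, 2, 4, 6, 6], [1, 2, 2, 4, 4, 6],
   [1, 2, 2, 2, 4, 8], [1, 2, 2, 2, 6, 8]]

/-- The reversed codes of pairs, six positions. -/
def PR6 : List (List ℕ) :=
  [[6, 6, 6, 2, 0, 0], [8, 8, 2, 2, 0, 0], [10, 2, 2, 2, 0, 0], [6, 6, 2, 2, 2, 1],
   [10, 2, 2, 0, 0, 0], [8, 2, 2, 2, 2, 1], [6, 6, 4, 4, 0, 0], [6, 4, 4, 4, 3, 1],
   [10, 4, 0, 0, 0, 0], [10, 6, 0, 0, 0, 0], [6, 6, 4, 2, 2, 1], [6, 4, 4, 2, 2, 1],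
   [8, 4, 2, 2, 2, 1], [8, 6, 2, 2, 2, 1]]

/-- Codes of pairs, nine positions. -/
def PF9 : List (List ℕ) :=
  [[0, 0, 2, 6, 6, 6, 6, 6, 6], [0, 0, 2, 2, 8, 8, 8, 8, 8], [0, 0, 2, 2, 2, 10, 10, 10, 10],
   [0, 0, 2, 2, 2, 2, 12, 12, 12], [0, 0, 2, 2, 2, 2, 2, 14, 14], [0, 0, 2, 2, 2, 2, 2, 2, 16],
   [1, 2, 2, 2, 6, 6, 6, 6, 6], [0, 0, 0, 2, 2, 10, 10, 10, 10], [0, 0, 0, 2, 2, 2, 12, 12, 12],
   [0, 0, 0, 2, 2, 2, 2, 14, 14], [0, 0, 0, 2, 2, 2, 2, 2, 16], [1, 2, 2, 2, 2, 8, 8, 8, 8],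
   [0, 2, 2, 2, 2, 2, 8, 8, 8], [0, 0, 0, 0, 2, 2, 2, 14, 14], [0, 0, 0, 0, 2, 2, 2, 2, 16],
   [1, 2, 2, 2, 2, 2, 10, 10, 10], [0, 0, 0, 0, 0, 2, 2, 14, 14], [0, 0, 0, 0, 0, 2, 2, 2, 16],
   [1, 2, 2, 2, 2, 2, 2, 12, 12], [0, 0, 0, 0, 0, 0, 2, 2, 16], [1, 2, 2, 2, 2, 2, 2, 2, 14],
   [0, 0, 0, 4, 8, 8, 8, 8, 8], [1, 3, 4, 4, 4, 6, 6, 6, 6], [1, 3, 4, 4, 4, 4, 6, 6, 6],
   [1, 3, 4, 4, 4, 4, 4, 6, 6], [1, 3, 4, 4, 4, 4, 4, 4, 6], [0, 0, 0, 0, 4, 10, 10, 10, 10],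
   [1, 3, 4, 4, 4, 4, 8, 8, 8], [1, 3, 4, 4, 4, 4, 4, 8, 8], [1, 3, 4, 4, 4, 4, 4, 4, 8],
   [0, 0, 0, 0, 0, 4, 12, 12, 12], [0, 0, 4, 4, 4, 4, 4, 10, 10], [0, 0, 4, 4, 4, 4, 4, 4, 10],
   [0, 0, 0, 0, 0, 0, 4, 14, 14], [0, 0, 4, 4, 4, 4, 4, 4, 12], [0, 0, 0, 0, 0, 0, 0, 4, 16],
   [0, 0, 0, 0, 6, 10, 10, 10, 10], [0, 0, 0, 0, 6, 6, 12, 12, 12], [0, 0, 0, 6, 6, 6, 6, 8, 8],
   [0, 0, 0, 6, 6, 6, 6, 6, 8], [0, 0, 0, 0, 0, 6, 12, 12, 12], [0, 0, 0, 6, 6, 6, 6, 10, 10],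
   [0, 0, 0, 6, 6, 6, 6, 6, 10], [0, 0, 0, 0, 0, 0, 6, 14, 14], [0, 0, 0, 6, 6, 6, 6, 6, 12],
   [0, 0, 0, 0, 0, 0, 0, 6, 16], [0, 0, 0, 0, 0, 8, 12, 12, 12], [0, 0, 0, 0, 8, 8, 8, 10, 10],
   [0, 0, 0, 0, 8, 8, 8, 8, 10], [0, 0, 0, 0, 0, 0, 8, 14, 14], [0, 0, 0, 0, 8, 8, 8, 8, 12],
   [0, 0, 0, 0, 0, 0, 0, 8, 16], [0, 0, 0, 0, 0, 0, 10, 14, 14], [1, 3, 5, 7, 9, 10, 10, 10, 12],
   [0, 0, 0, 0, 0, 0, 0, 10, 16], [0, 0, 0, 0, 0, 0, 0, 12, 16], [1, 2, 2, 4, 6, 6, 6, 6, 6],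
   [1, 2, 2, 4, 4, 6, 6, 6, 6], [1, 2, 2, 4, 4, 4, 6, 6, 6], [1, 2, 2, 4, 4, 4, 4, 6, 6],
   [1, 2, 2, 4, 4, 4, 4, 4, 6], [1, 2, 2, 2, 4, 8, 8, 8, 8], [1, 2, 2, 2, 4, 4, 8, 8, 8],
   [1, 2, 2, 2, 4, 4, 4, 8, 8], [1, 2, 2, 2, 4, 4, 4, 4, 8], [1, 2, 2, 2, 2, 4, 10, 10, 10],
   [1, 2, 2, 2, 2, 4, 4, 10, 10], [1, 2, 2, 2, 2, 4, 4, 4, 10], [1, 2, 2, 2, 2, 2, 4, 12, 12],
   [1, 2, 2, 2, 2, 2, 4, 4, 12], [1, 2, 2, 2, 2, 2, 2, 4, 14], [1, 2, 2, 2, 6, 8, 8, 8, 8],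
   [1, 2, 2, 2, 6, 6, 8, 8, 8], [1, 2, 2, 2, 6, 6, 6, 8, 8], [1, 2, 2, 2, 6, 6, 6, 6, 8],
   [1, 2, 2, 2, 2, 6, 10, 10, 10], [1, 2, 2, 2, 2, 6, 6, 10, 10], [1, 2, 2, 2, 2, 6, 6, 6, 10],
   [1, 2, 2, 2, 2, 2, 6, 12, 12], [1, 2, 2, 2, 2, 2, 6, 6, 12], [1, 2, 2, 2, 2, 2, 2, 6, 14],
   [1, 2, 2, 2, 2, 8, 10, 10, 10], [1, 2, 2, 2, 2, 8, 8, 10, 10], [1, 2, 2, 2, 2, 8, 8, 8, 10],
   [1, 2, 2, 2, 2, 2, 8, 12, 12], [1, 2, 2, 2, 2, 2, 8, 8, 12], [1, 2, 2, 2, 2, 2, 2, 8, 14],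
   [1, 2, 2, 2, 2, 2, 10, 12, 12], [1, 2, 2, 2, 2, 2, 10, 10, 12], [1, 2, 2, 2, 2, 2, 2, 10, 14],
   [1, 2, 2, 2, 2, 2, 2, 12, 14], [1, 3, 4, 4, 4, 4, 10, 12, 12], [1, 3, 4, 4, 4, 4, 10, 10, 12],
   [1, 3, 4, 4, 4, 4, 4, 10, 14], [1, 3, 4, 4, 4, 4, 4, 12, 14], [1, 3, 5, 6, 6, 8, 12, 12, 12],
   [1, 3, 5, 6, 6, 8, 8, 14, 14], [1, 3, 5, 6, 6, 8, 8, 8, 16], [1, 3, 5, 7, 8, 8, 8, 12, 12],
   [1, 3, 5, 6, 6, 6, 8, 8, 16], [1, 3, 5, 7, 8, 8, 8, 8, 14], [1, 3, 5, 6, 6, 10, 10, 12, 12],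
   [1, 3, 5, 6, 6, 6, 6, 10, 16], [1, 3, 5, 6, 6, 6, 6, 12, 16], [1, 3, 5, 7, 8, 8, 10, 12, 12],
   [1, 3, 5, 7, 8, 8, 10, 10, 12], [1, 3, 5, 7, 8, 8, 8, 10, 14], [1, 3, 5, 7, 8, 8, 8, 12, 14]]

/-- The reversed codes of pairs, nine positions. -/
def PR9 : List (List ℕ) :=
  [[6, 6, 6, 6, 6, 6, 2, 0, 0], [8, 8, 8, 8, 8, 2, 2, 0, 0], [10, 10, 10, 10, 2, 2, 2, 0, 0],
   [12, 12, 12, 2, 2, 2, 2, 0, 0], [14, 14, 2, 2, 2, 2, 2, 0, 0], [16, 2, 2, 2, 2, 2, 2, 0, 0],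
   [6, 6, 6, 6, 6, 2, 2, 2, 1], [10, 10, 10, 10, 2, 2, 0, 0, 0], [12, 12, 12, 2, 2, 2, 0, 0, 0],
   [14, 14, 2, 2, 2, 2, 0, 0, 0], [16, 2, 2, 2, 2, 2, 0, 0, 0], [8, 8, 8, 8, 2, 2, 2, 2, 1],
   [8, 8, 8, 2, 2, 2, 2, 2, 0], [14, 14, 2, 2, 2, 0, 0, 0, 0], [16, 2, 2, 2, 2, 0, 0, 0, 0],
   [10, 10, 10, 2, 2, 2, 2, 2, 1], [14, 14, 2, 2, 0, 0, 0, 0, 0], [16, 2, 2, 2, 0, 0, 0, 0, 0],
   [12, 12, 2, 2, 2, 2, 2, 2, 1], [16, 2, 2, 0, 0, 0, 0, 0, 0], [14, 2, 2, 2, 2, 2, 2, 2, 1],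
   [8, 8, 8, 8, 8, 4, 0, 0, 0], [6, 6, 6, 6, 4, 4, 4, 3, 1], [6, 6, 6, 4, 4, 4, 4, 3, 1],
   [6, 6, 4, 4, 4, 4, 4, 3, 1], [6, 4, 4, 4, 4, 4, 4, 3, 1], [10, 10, 10, 10, 4, 0, 0, 0, 0],
   [8, 8, 8, 4, 4, 4, 4, 3, 1], [8, 8, 4, 4, 4, 4, 4, 3, 1], [8, 4, 4, 4, 4, 4, 4, 3, 1],
   [12, 12, 12, 4, 0, 0, 0, 0, 0], [10, 10, 4, 4, 4, 4, 4, 0, 0], [10, 4, 4, 4, 4, 4, 4, 0, 0],
   [14, 14, 4, 0, 0, 0, 0, 0, 0], [12, 4, 4, 4, 4, 4, 4, 0, 0], [16, 4, 0, 0, 0, 0, 0, 0, 0],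
   [10, 10, 10, 10, 6, 0, 0, 0, 0], [12, 12, 12, 6, 6, 0, 0, 0, 0], [8, 8, 6, 6, 6, 6, 0, 0, 0],
   [8, 6, 6, 6, 6, 6, 0, 0, 0], [12, 12, 12, 6, 0, 0, 0, 0, 0], [10, 10, 6, 6, 6, 6, 0, 0, 0],
   [10, 6, 6, 6, 6, 6, 0, 0, 0], [14, 14, 6, 0, 0, 0, 0, 0, 0], [12, 6, 6, 6, 6, 6, 0, 0, 0],
   [16, 6, 0, 0, 0, 0, 0, 0, 0], [12, 12, 12, 8, 0, 0, 0, 0, 0], [10, 10, 8, 8, 8, 0, 0, 0, 0],
   [10, 8, 8, 8, 8, 0, 0, 0, 0], [14, 14, 8, 0, 0, 0, 0, 0, 0], [12, 8, 8, 8, 8, 0, 0, 0, 0],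
   [16, 8, 0, 0, 0, 0, 0, 0, 0], [14, 14, 10, 0, 0, 0, 0, 0, 0], [12, 10, 10, 10, 9, 7, 5, 3, 1],
   [16, 10, 0, 0, 0, 0, 0, 0, 0], [16, 12, 0, 0, 0, 0, 0, 0, 0], [6, 6, 6, 6, 6, 4, 2, 2, 1],
   [6, 6, 6, 6, 4, 4, 2, 2, 1], [6, 6, 6, 4, 4, 4, 2, 2, 1], [6, 6, 4, 4, 4, 4, 2, 2, 1],
   [6, 4, 4, 4, 4, 4, 2, 2, 1], [8, 8, 8, 8, 4, 2, 2, 2, 1], [8, 8, 8, 4, 4, 2, 2, 2, 1],
   [8, 8, 4, 4, 4, 2, 2, 2, 1], [8, 4, 4, 4, 4, 2, 2, 2, 1], [10, 10, 10, 4, 2, 2, 2, 2, 1],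
   [10, 10, 4, 4, 2, 2, 2, 2, 1], [10, 4, 4, 4, 2, 2, 2, 2, 1], [12, 12, 4, 2, 2, 2, 2, 2, 1],
   [12, 4, 4, 2, 2, 2, 2, 2, 1], [14, 4, 2, 2, 2, 2, 2, 2, 1], [8, 8, 8, 8, 6, 2, 2, 2, 1],
   [8, 8, 8, 6, 6, 2, 2, 2, 1], [8, 8, 6, 6, 6, 2, 2, 2, 1], [8, 6, 6, 6, 6, 2, 2, 2, 1],
   [10, 10, 10, 6, 2, 2, 2, 2, 1], [10, 10, 6, 6, 2, 2, 2, 2, 1], [10, 6, 6, 6, 2, 2, 2, 2, 1],
   [12, 12, 6, 2, 2, 2, 2, 2, 1], [12, 6, 6, 2, 2, 2, 2, 2, 1], [14, 6, 2, 2, 2, 2, 2, 2, 1],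
   [10, 10, 10, 8, 2, 2, 2, 2, 1], [10, 10, 8, 8, 2, 2, 2, 2, 1], [10, 8, 8, 8, 2, 2, 2, 2, 1],
   [12, 12, 8, 2, 2, 2, 2, 2, 1], [12, 8, 8, 2, 2, 2, 2, 2, 1], [14, 8, 2, 2, 2, 2, 2, 2, 1],
   [12, 12, 10, 2, 2, 2, 2, 2, 1], [12, 10, 10, 2, 2, 2, 2, 2, 1], [14, 10, 2, 2, 2, 2, 2, 2, 1],
   [14, 12, 2, 2, 2, 2, 2, 2, 1], [12, 12, 10, 4, 4, 4, 4, 3, 1], [12, 10, 10, 4, 4, 4, 4, 3, 1],
   [14, 10, 4, 4, 4, 4, 4, 3, 1], [14, 12, 4, 4, 4, 4, 4, 3, 1], [12, 12, 12, 8, 6, 6, 5, 3, 1],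
   [14, 14, 8, 8, 6, 6, 5, 3, 1], [16, 8, 8, 8, 6, 6, 5, 3, 1], [12, 12, 8, 8, 8, 7, 5, 3, 1],
   [16, 8, 8, 6, 6, 6, 5, 3, 1], [14, 8, 8, 8, 8, 7, 5, 3, 1], [12, 12, 10, 10, 6, 6, 5, 3, 1],
   [16, 10, 6, 6, 6, 6, 5, 3, 1], [16, 12, 6, 6, 6, 6, 5, 3, 1], [12, 12, 10, 8, 8, 7, 5, 3, 1],
   [12, 10, 10, 8, 8, 7, 5, 3, 1], [14, 10, 8, 8, 8, 7, 5, 3, 1], [14, 12, 8, 8, 8, 7, 5, 3, 1]]

/-- Triangles, nine positions. -/
def TB9 : List (List (ℕ × List ℕ)) :=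
  [[(53, [0]), (95, [0]), (96, [0]), (97, [0]), (98, [0]), (99, [0]), (100, [0]), (101, [0]),
     (102, [0]), (103, [0]), (104, [0]), (105, [0]), (106, [0]), (107, [0])],
   [(53, [1]), (98, [1]), (100, [1]), (104, [1]), (105, [1]), (106, [1]), (107, [1])],
   [(53, [2]), (101, [2])], [(95, [3])], [(96, [4])],
   [(97, [5]), (99, [5]), (102, [5]), (103, [5])],
   [(53, [6]), (95, [6]), (96, [6]), (97, [6]), (98, [6]), (99, [6]), (100, [6]), (101, [6]),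
     (102, [6]), (103, [6]), (104, [6]), (105, [6]), (106, [6]), (107, [6])],
   [(53, [7]), (101, [7])], [(95, [8])], [(96, [9])],
   [(97, [10]), (99, [10]), (102, [10]), (103, [10])],
   [(53, [11]), (98, [11]), (100, [11]), (104, [11]), (105, [11]), (106, [11]), (107, [11])],
   [(53, [12]), (98, [12]), (100, [12]), (104, [12]), (105, [12]), (106, [12]), (107, [12])],
   [(96, [13])], [(97, [14]), (99, [14]), (102, [14]), (103, [14])], [(53, [15]), (101, [15])],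
   [(96, [16])], [(97, [17]), (99, [17]), (102, [17]), (103, [17])], [(95, [18])],
   [(97, [19]), (99, [19]), (102, [19]), (103, [19])], [(96, [20])],
   [(53, [21]), (98, [21]), (100, [21]), (104, [21]), (105, [21]), (106, [21]), (107, [21])],
   [(53, [22]), (95, [22]), (96, [22]), (97, [22]), (98, [22]), (99, [22]), (100, [22]), (101,
     [22]), (102, [22]), (103, [22]), (104, [22]), (105, [22]), (106, [22]), (107, [22])],
   [(53, [23]), (95, [23]), (96, [23]), (97, [23]), (98, [23]), (99, [23]), (100, [23]), (101,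
     [23]), (102, [23]), (103, [23]), (104, [23]), (105, [23]), (106, [23]), (107, [23])],
   [(53, [24]), (95, [24]), (96, [24]), (97, [24]), (98, [24]), (99, [24]), (100, [24]), (101,
     [24]), (102, [24]), (103, [24]), (104, [24]), (105, [24]), (106, [24]), (107, [24])],
   [(53, [25]), (95, [25]), (96, [25]), (97, [25]), (98, [25]), (99, [25]), (100, [25]), (101,
     [25]), (102, [25]), (103, [25]), (104, [25]), (105, [25]), (106, [25]), (107, [25])],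
   [(53, [26]), (101, [26])],
   [(53, [27]), (95, [23]), (96, [23]), (97, [23]), (98, [27]), (99, [23]), (100, [27]), (101,
     [23]), (102, [23]), (103, [23]), (104, [27]), (105, [27]), (106, [27]), (107, [27])],
   [(53, [28]), (95, [24]), (96, [24]), (97, [24]), (98, [28]), (99, [24]), (100, [28]), (101,
     [24]), (102, [24]), (103, [24]), (104, [28]), (105, [28]), (106, [28]), (107, [28])],
   [(53, [29]), (95, [25]), (96, [25]), (97, [25]), (98, [29]), (99, [25]), (100, [29]), (101,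
     [25]), (102, [25]), (103, [25]), (104, [29]), (105, [29]), (106, [29]), (107, [29])],
   [(95, [30])], [(53, [31]), (101, [31])], [(53, [32]), (101, [32])], [(96, [33])],
   [(53, [32]), (91, [32]), (92, [32]), (95, [32, 34]), (101, [32]), (104, [32]), (105, [32])],
   [(97, [35]), (99, [35]), (102, [35]), (103, [35])], [(53, [36]), (101, [36])], [(95, [37])],
   [(53, [38]), (98, [38]), (100, [38]), (104, [38]), (105, [38]), (106, [38]), (107, [38])],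
   [(53, [39]), (98, [39]), (100, [39]), (104, [39]), (105, [39]), (106, [39]), (107, [39])],
   [(95, [40])],
   [(53, [41]), (95, [38, 39]), (96, [38, 39]), (97, [38, 39]), (98, [38]), (100, [38]), (101,
     [38, 39, 41, 42]), (104, [38]), (105, [38]), (106, [38]), (107, [38])],
   [(53, [42]), (95, [39]), (96, [39]), (97, [39]), (98, [39]), (100, [39]), (101, [39, 42]),
     (104, [39]), (105, [39]), (106, [39]), (107, [39])], [(96, [43])],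
   [(53, [42]), (95, [39, 42, 44]), (96, [39]), (97, [39]), (98, [39]), (99, [39]), (100, [39]),
     (101, [42]), (104, [39, 42]), (105, [39, 42]), (106, [39]), (107, [39])],
   [(97, [45]), (99, [45]), (102, [45]), (103, [45])], [(37, [30, 40]), (95, [40])],
   [(53, [47])], [(53, [48])], [(96, [43])], [(53, [48]), (104, [48]), (105, [48])],
   [(97, [45]), (99, [45]), (102, [45]), (103, [45])], [(96, [43, 49])],
   [(0, [0]), (1, [1]), (2, [2]), (6, [6]), (7, [7]), (11, [11]), (21, [21]), (22, [22, 23, 24,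
     25]), (23, [25]), (26, [26]), (27, [25, 29]), (36, [36]), (56, [56]), (57, [57, 58, 59,
     60]), (58, [60]), (61, [61, 62, 63, 64]), (62, [64]), (65, [67]), (71, [71, 72, 73, 74]),
     (72, [6, 74]), (73, [6]), (74, [6]), (75, [67, 77]), (81, [11, 67, 77, 83]), (82, [11]),
     (83, [11]), (91, [25, 29]), (92, [25, 29])],
   [(97, [45, 51]), (99, [45]), (102, [45]), (103, [45])],
   [(97, [51]), (99, [45, 51]), (102, [45]), (103, [45])],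
   [(53, [56]), (95, [56]), (96, [56]), (97, [56]), (98, [56]), (99, [56]), (100, [56]), (101,
     [56]), (102, [56]), (103, [56]), (104, [56]), (105, [56]), (106, [56]), (107, [56])],
   [(53, [57]), (95, [57]), (96, [57]), (97, [57]), (98, [57]), (99, [57]), (100, [57]), (101,
     [57]), (102, [57]), (103, [57]), (104, [57]), (105, [57]), (106, [57]), (107, [57])],
   [(53, [58]), (95, [58]), (96, [58]), (97, [58]), (98, [58]), (99, [58]), (100, [58]), (101,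
     [58]), (102, [58]), (103, [58]), (104, [58]), (105, [58]), (106, [58]), (107, [58])],
   [(53, [59]), (95, [59]), (96, [59]), (97, [59]), (98, [59]), (99, [59]), (100, [59]), (101,
     [59]), (102, [59]), (103, [59]), (104, [59]), (105, [59]), (106, [59]), (107, [59])],
   [(53, [60]), (95, [60]), (96, [60]), (97, [60]), (98, [60]), (99, [60]), (100, [60]), (101,
     [60]), (102, [60]), (103, [60]), (104, [60]), (105, [60]), (106, [60]), (107, [60])],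
   [(53, [61]), (98, [61]), (100, [61]), (104, [61]), (105, [61]), (106, [61]), (107, [61])],
   [(53, [62]), (98, [62]), (100, [62]), (104, [62]), (105, [62]), (106, [62]), (107, [62])],
   [(53, [63]), (98, [63]), (100, [63]), (104, [63]), (105, [63]), (106, [63]), (107, [63])],
   [(53, [64]), (98, [64]), (100, [64]), (104, [64]), (105, [64]), (106, [64]), (107, [64])],
   [(53, [65]), (101, [65])], [(53, [66]), (101, [66])], [(53, [67]), (101, [67])], [(95, [68])],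
   [(95, [69])], [(96, [70])],
   [(53, [71]), (95, [6]), (96, [6]), (97, [6]), (98, [71]), (99, [6]), (100, [71]), (101, [6]),
     (102, [6]), (103, [6]), (104, [71]), (105, [71]), (106, [71]), (107, [71])],
   [(53, [72]), (95, [6]), (96, [6]), (97, [6]), (98, [72]), (99, [6]), (100, [72]), (101, [6]),
     (102, [6]), (103, [6]), (104, [72]), (105, [72]), (106, [72]), (107, [72])],
   [(53, [73]), (95, [6]), (96, [6]), (97, [6]), (98, [73]), (99, [6]), (100, [73]), (101, [6]),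
     (102, [6]), (103, [6]), (104, [73]), (105, [73]), (106, [73]), (107, [73])],
   [(53, [74]), (95, [6]), (96, [6]), (97, [6]), (98, [74]), (99, [6]), (100, [74]), (101, [6]),
     (102, [6]), (103, [6]), (104, [74]), (105, [74]), (106, [74]), (107, [74])],
   [(53, [75]), (101, [75, 76, 77])], [(53, [76]), (101, [76, 77])], [(53, [77]), (101, [77])],
   [(95, [78])], [(95, [79])], [(96, [80])],
   [(53, [81]), (98, [11]), (100, [11]), (101, [75, 76, 77]), (104, [11]), (105, [11]), (106,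
     [11]), (107, [11])],
   [(53, [82]), (98, [11]), (100, [11]), (101, [76, 77]), (104, [11]), (105, [11]), (106, [11]),
     (107, [11])],
   [(53, [83]), (98, [11]), (100, [11]), (101, [77]), (104, [11]), (105, [11]), (106, [11]),
     (107, [11])], [(95, [78])], [(95, [79])], [(96, [80])],
   [(53, [15]), (95, [78, 84, 85]), (101, [15])], [(53, [15]), (95, [79, 85]), (101, [15])],
   [(96, [80, 86])], [(95, [18]), (96, [86])],
   [(22, [23, 24]), (23, [24, 25]), (27, [24, 25, 28, 29]), (91, [24, 25, 28, 29]), (92, [24, 25,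
     28, 29]), (95, [27]), (96, [27]), (97, [27]), (98, [27]), (99, [23]), (100, [27]), (102,
     [23]), (103, [23]), (104, [27]), (105, [27]), (106, [27]), (107, [27])],
   [(22, [23, 24, 25]), (23, [25]), (27, [25, 29]), (91, [25, 29]), (92, [25, 29]), (95, [27]),
     (96, [27]), (97, [27]), (98, [27]), (99, [23]), (100, [27]), (102, [23]), (103, [23]), (104,
     [27]), (105, [27]), (106, [27]), (107, [27])],
   [(22, [24, 25]), (23, [25]), (24, [25]), (27, [29]), (28, [25, 29]), (31, [32]), (93, [25,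
     29]), (94, [25, 29]), (96, [28]), (97, [28]), (98, [28]), (100, [28]), (102, [24]), (103,
     [24]), (106, [28]), (107, [28])],
   [(22, [24]), (23, [24, 25]), (24, [25]), (27, [28, 29]), (28, [25, 29]), (31, [32]), (93, [25,
     29]), (94, [25, 29]), (96, [28]), (97, [28]), (98, [28]), (99, [28]), (100, [28]), (102,
     [24]), (103, [24]), (106, [28]), (107, [28])],
   [(0, [0]), (3, [3]), (8, [8]), (12, [12]), (15, [15]), (22, [23]), (23, [23, 24, 25]), (27,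
     [23, 24, 25, 27, 28, 29]), (37, [30, 40]), (56, [57, 58]), (57, [58]), (58, [58, 59, 60]),
     (65, [15]), (75, [15]), (81, [15]), (87, [15]), (88, [15]), (91, [23, 24, 25, 27, 28, 29]),
     (92, [23, 24, 25, 27, 28, 29])],
   [(0, [0]), (4, [4]), (9, [9, 13, 16]), (13, [16]), (18, [18]), (22, [24]), (23, [24]), (24,
     [24, 25]), (27, [28]), (28, [24, 25, 28, 29]), (31, [31, 32]), (38, [38, 39]), (41, [38, 39,
     41, 42]), (56, [57, 58, 59]), (57, [59]), (58, [59]), (59, [59, 60]), (68, [18]), (78,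
     [18]), (84, [18]), (87, [18]), (90, [18]), (93, [24, 25, 28, 29]), (94, [24, 25, 28, 29])],
   [(0, [0]), (5, [5]), (10, [10, 14, 17]), (14, [17, 19]), (20, [20]), (22, [25]), (23, [25]),
     (24, [25]), (25, [25]), (27, [29]), (28, [29]), (29, [25, 29]), (31, [32]), (32, [32]), (34,
     [32, 34]), (38, [39]), (39, [39]), (41, [42]), (42, [39, 42]), (44, [39, 42, 44]), (56, [57,
     58, 59, 60]), (57, [60]), (58, [60]), (59, [60]), (60, [60]), (70, [20]), (80, [20]), (86,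
     [20]), (89, [20]), (90, [20])],
   [(0, [0]), (1, [1]), (6, [6]), (21, [21]), (22, [24]), (23, [24, 25]), (27, [24, 25, 28, 29]),
     (56, [56, 57, 58, 59]), (57, [59]), (58, [59, 60]), (61, [63]), (62, [63, 64]), (71, [63,
     73]), (72, [6, 63, 73, 74]), (73, [6]), (74, [6]), (91, [24, 25, 28, 29]), (92, [24, 25, 28,
     29])],
   [(0, [0]), (5, [5]), (10, [10, 14, 17, 19]), (14, [19]), (20, [20]), (22, [25]), (23, [25]),
     (24, [25]), (25, [25]), (27, [29]), (28, [29]), (29, [25, 29]), (31, [32]), (32, [32]), (34,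
     [32, 34]), (38, [39]), (39, [39]), (41, [42]), (42, [39, 42]), (44, [39, 42, 44]), (56, [58,
     59, 60]), (57, [60]), (58, [60]), (59, [60]), (60, [60]), (70, [20]), (80, [20]), (86,
     [20]), (89, [20]), (90, [20])],
   [(0, [0]), (1, [1]), (6, [6]), (21, [21]), (22, [25]), (23, [25]), (24, [25]), (27, [29]),
     (28, [25, 29]), (31, [32]), (38, [39]), (41, [39, 42]), (47, [48]), (56, [56, 57, 58, 59,
     60]), (57, [60]), (58, [60]), (59, [60]), (61, [64]), (62, [64]), (63, [64]), (71, [64,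
     74]), (72, [64, 74]), (73, [6, 64, 74]), (74, [6]), (93, [25, 29]), (94, [25, 29])],
   [(0, [0]), (2, [2]), (7, [7]), (11, [11]), (22, [22, 23, 24]), (23, [24, 25]), (27, [24, 25,
     28, 29]), (56, [57]), (57, [57, 58, 59]), (58, [59, 60]), (61, [11]), (65, [66, 67]), (71,
     [11]), (75, [66, 76, 77]), (81, [11, 66, 76, 82, 83]), (82, [11]), (83, [11]), (91, [24, 25,
     28, 29]), (92, [24, 25, 28, 29])],
   [(0, [0]), (5, [5]), (10, [10, 14, 17, 19]), (20, [20]), (22, [24, 25]), (23, [25]), (24,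
     [25]), (25, [25]), (27, [29]), (28, [29]), (29, [25, 29]), (31, [32]), (32, [32]), (34, [32,
     34]), (38, [39]), (39, [39]), (41, [42]), (42, [39, 42]), (44, [39, 42, 44]), (56, [59]),
     (57, [59, 60]), (58, [60]), (59, [60]), (60, [60]), (70, [20]), (80, [20]), (86, [20]), (89,
     [20]), (90, [20])],
   [(0, [0]), (5, [5]), (10, [10, 14, 17, 19]), (20, [20]), (22, [24]), (23, [24, 25]), (24,
     [25]), (25, [25]), (27, [28, 29]), (28, [29]), (29, [25, 29]), (31, [32]), (32, [32]), (34,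
     [32, 34]), (38, [39]), (39, [39]), (41, [42]), (42, [39, 42]), (44, [39, 42, 44]), (56,
     [59]), (57, [59]), (58, [59, 60]), (59, [60]), (60, [60]), (70, [20]), (80, [20]), (86,
     [20]), (89, [20]), (90, [20])],
   [(0, [0]), (1, [1]), (6, [6]), (21, [21]), (22, [23, 24]), (23, [24, 25]), (27, [24, 25, 28,
     29]), (56, [56, 57, 58]), (57, [58, 59]), (58, [59, 60]), (61, [62, 63]), (62, [63, 64]),
     (71, [62, 72, 73]), (72, [6, 73, 74]), (73, [6]), (74, [6]), (91, [24, 25, 28, 29]), (92,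
     [24, 25, 28, 29])],
   [(0, [0]), (1, [1]), (6, [6]), (21, [21]), (22, [23, 24, 25]), (23, [25]), (27, [25, 29]),
     (56, [56, 57, 58]), (57, [58, 59, 60]), (58, [60]), (61, [62, 63, 64]), (62, [64]), (71,
     [62, 72, 73, 74]), (72, [6, 74]), (73, [6]), (74, [6]), (91, [25, 29]), (92, [25, 29])],
   [(0, [0]), (1, [1]), (6, [6]), (21, [21]), (22, [24, 25]), (23, [25]), (24, [25]), (27, [29]),
     (28, [25, 29]), (31, [32]), (38, [39]), (41, [39, 42]), (47, [48]), (56, [56, 57, 58, 59]),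
     (57, [59, 60]), (58, [60]), (59, [60]), (61, [63, 64]), (62, [64]), (63, [64]), (71, [63,
     73, 74]), (72, [74]), (73, [6, 74]), (74, [6]), (93, [25, 29]), (94, [25, 29])],
   [(0, [0]), (1, [1]), (6, [6]), (21, [21]), (22, [24]), (23, [24, 25]), (24, [25]), (27, [28,
     29]), (28, [25, 29]), (31, [32]), (38, [39]), (41, [39, 42]), (47, [48]), (56, [56, 57, 58,
     59]), (57, [59]), (58, [59, 60]), (59, [60]), (61, [63]), (62, [63, 64]), (63, [64]), (71,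
     [63, 73]), (72, [63, 73, 74]), (73, [6, 74]), (74, [6]), (93, [25, 29]), (94, [25, 29])]]

/-- Lower pairs of edges, nine positions. -/
def U9 : List (List ℕ) :=
  [[], [], [], [], [], [], [], [], [], [], [], [], [], [], [], [], [], [], [], [], [], [], [],
   [], [], [], [], [], [], [], [], [], [], [], [], [], [], [], [], [], [], [], [], [], [], [],
   [37], [], [], [], [], [], [],
   [0, 1, 2, 6, 7, 11, 21, 22, 23, 26, 27, 36, 56, 57, 58, 61, 62, 65, 71, 72, 73, 74, 75, 81,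
     82, 83, 91, 92], [], [], [], [], [], [], [], [], [], [], [], [], [], [], [], [], [], [], [],
   [], [], [], [], [], [], [], [], [], [], [], [], [], [], [], [], [], [], [22, 23, 27, 91, 92],
   [22, 23, 27, 91, 92], [22, 23, 24, 27, 28, 31, 93, 94], [22, 23, 24, 27, 28, 31, 93, 94],
   [0, 3, 8, 12, 15, 22, 23, 27, 37, 56, 57, 58, 65, 75, 81, 87, 88, 91, 92],
   [0, 4, 9, 13, 18, 22, 23, 24, 27, 28, 31, 38, 41, 56, 57, 58, 59, 68, 78, 84, 87, 90, 93, 94],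
   [0, 5, 10, 14, 20, 22, 23, 24, 25, 27, 28, 29, 31, 32, 34, 38, 39, 41, 42, 44, 56, 57, 58, 59,
     60, 70, 80, 86, 89, 90],
   [0, 1, 6, 21, 22, 23, 27, 56, 57, 58, 61, 62, 71, 72, 73, 74, 91, 92],
   [0, 5, 10, 14, 20, 22, 23, 24, 25, 27, 28, 29, 31, 32, 34, 38, 39, 41, 42, 44, 56, 57, 58, 59,
     60, 70, 80, 86, 89, 90],
   [0, 1, 6, 21, 22, 23, 24, 27, 28, 31, 38, 41, 47, 56, 57, 58, 59, 61, 62, 63, 71, 72, 73, 74,
     93, 94], [0, 2, 7, 11, 22, 23, 27, 56, 57, 58, 61, 65, 71, 75, 81, 82, 83, 91, 92],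
   [0, 5, 10, 20, 22, 23, 24, 25, 27, 28, 29, 31, 32, 34, 38, 39, 41, 42, 44, 56, 57, 58, 59, 60,
     70, 80, 86, 89, 90],
   [0, 5, 10, 20, 22, 23, 24, 25, 27, 28, 29, 31, 32, 34, 38, 39, 41, 42, 44, 56, 57, 58, 59, 60,
     70, 80, 86, 89, 90], [0, 1, 6, 21, 22, 23, 27, 56, 57, 58, 61, 62, 71, 72, 73, 74, 91, 92],
   [0, 1, 6, 21, 22, 23, 27, 56, 57, 58, 61, 62, 71, 72, 73, 74, 91, 92],
   [0, 1, 6, 21, 22, 23, 24, 27, 28, 31, 38, 41, 47, 56, 57, 58, 59, 61, 62, 63, 71, 72, 73, 74,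
     93, 94],
   [0, 1, 6, 21, 22, 23, 24, 27, 28, 31, 38, 41, 47, 56, 57, 58, 59, 61, 62, 63, 71, 72, 73, 74,
     93, 94]]

end Pool.Agent.Helper77.EX
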