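import Pool.Agent.Helper77.EX.Kern

/-!
Codes of the pairs realising the patterns used by the explicit colourings.
-/

namespace Pool.Agent.Helper77.EX

open Pool.Agent.Helper18.EH Pool.Agent.Helper77.EH

/-- The pattern `XXYXYY` on the interval `[t1, e)`. -/
def T3w (x y : ℕ → ℕ) (t1 t2 t3 e : ℕ) : Prop :=
  t1 < t2 ∧ t2 < t3 ∧ t3 < e ∧ x (t3 - 1) < y t1 ∧ y (t2 - 1) < x t3 ∧ x (e - 1) < y t2

/-- Realising the pattern `XXYXYY` inside a tree, from the top. -/
theorem T3w.exists {n : ℕ} {H : Set (ℕ → ℕ)} {s s2 s3 s4 : ℕ} {q : ℕ → ℕ}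
    (h : Node n H [s2, s3, s4] s q) : ∃ x ∈ H, ∃ y ∈ H, (∀ j < s, x j = y j) ∧
      T3w x y s s2 s4 n := by
  obtain ⟨o1, h0⟩ := h
  obtain ⟨q1, _, r1, o2, h1⟩ := h0 0
  obtain ⟨q2, _, r2, o3, h2⟩ := h1 0
  obtain ⟨q3, _, r3, o4, h3⟩ := h2 0
  obtain ⟨p1, v1, w1, _, k1⟩ := h0 (q3 (s4 - 1))
  obtain ⟨x, hxH, v4, r4⟩ := h3 (p1 (s2 - 1))
  obtain ⟨p2, v3, w2, _, k2⟩ := k1 (x (n - 1))
  obtain ⟨p3, _, w3, _, k3⟩ := k2 0
  obtain ⟨y, hyH, v5, w4⟩ := k3 0
  refine ⟨x, hxH, y, hyH, fun j hj => ?_, o1, by omega, o4, ?_, ?_, ?_⟩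
  · rw [r4 j (by omega), r3 j (by omega), r2 j (by omega), r1 j hj,
      w4 j (by omega), w3 j (by omega), w2 j (by omega), w1 j hj]
  · rw [r4 _ (by omega), w4 s (by omega), w3 s (by omega), w2 s (by omega)]
    exact v1
  · rw [w4 _ (by omega), w3 _ (by omega), w2 _ (by omega)]
    exact v4
  · rw [w4 _ (by omega), w3 _ (by omega)]
    exact v3

/-- Realising the pattern `XXYXYY` inside a tree, below the top. -/
theorem T3w.exists_low {n : ℕ} {H : Set (ℕ → ℕ)} {s s2 s3 s4 : ℕ} {q : ℕ → ℕ}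
    (h : Node n H [s2, s3, s4] s q) : ∃ x ∈ H, ∃ y ∈ H, (∀ j < s2, x j = y j) ∧
      T3w x y s2 s3 s4 n := by
  obtain ⟨o1, h0⟩ := h
  obtain ⟨q1, _, r1, o2, h1⟩ := h0 0
  obtain ⟨q2, _, r2, o3, h2⟩ := h1 0
  obtain ⟨q3, _, r3, o4, h3⟩ := h2 0
  obtain ⟨p2, v2, w2, _, k2⟩ := h1 (q3 (s4 - 1))
  obtain ⟨x, hxH, v4, r4⟩ := h3 (p2 (s3 - 1))
  obtain ⟨p3, v3, w3, _, k3⟩ := k2 (x (n - 1))
  obtain ⟨y, hyH, v5, w4⟩ := k3 0
  refine ⟨x, hxH, y, hyH, fun j hj => ?_, o2, o3, o4, ?_, ?_, ?_⟩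
  · rw [r4 j (by omega), r3 j (by omega), r2 j (by omega),
      w4 j (by omega), w3 j (by omega), w2 j (by omega)]
  · rw [r4 _ (by omega), w4 s2 (by omega), w3 s2 (by omega)]
    exact v2
  · rw [w4 _ (by omega), w3 _ (by omega)]
    exact v4
  · rw [w4 _ (by omega)]
    exact v3

/-- The code of the pattern `XXYXYXYY`. -/
def cQ (s1 s2 s3 s4 j : ℕ) : ℕ :=
  if j < s1 then 2 * j + 1 else if j < s3 then 2 * s1 else if j < s4 then 2 * s2 else 2 * s3

/-- The code of the pattern `XXYXYYXY`. -/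
def cL (s1 s2 s3 s4 j : ℕ) : ℕ :=
  if j < s1 then 2 * j + 1 else if j < s3 then 2 * s1 else if j < s4 then 2 * s2 else 2 * s4

/-- The code of the pattern `XYXXYXYY`. -/
def cR (s1 s2 s3 s4 j : ℕ) : ℕ :=
  if j < s1 then 2 * j + 1 else if j < s2 then 2 * s1 else if j < s4 then 2 * s2 else 2 * s3

/-- The code of the pattern `XXYXYY`. -/
def cT (s1 s2 s3 j : ℕ) : ℕ :=
  if j < s1 then 2 * j + 1 else if j < s3 then 2 * s1 else 2 * s2

theorem St.le {N : ℕ} {X : ℕ → ℕ} (h : St N X) {a b : ℕ} (hab : a ≤ b) (hb : b < N) :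
    X a ≤ X b := by
  rcases Nat.eq_or_lt_of_le hab with rfl | g
  · exact le_rfl
  · exact (h a b g hb).le

section

variable {N : ℕ} {X Y : ℕ → ℕ}

theorem code_eq {f : ℕ → ℕ} (h : ∀ j < N, rk N Y (X j) = f j) :
    code N X Y = (List.range' 0 N).map f := by
  unfold code
  apply List.map_congr_left
  intro j hj
  rw [List.mem_range'_1] at hj
  exact h j (by omega)

theorem rk_shared (hY : St N Y) {s j : ℕ} (h : ∀ j < s, X j = Y j) (hj : j < s) (hN : j < N) :
    rk N Y (X j) = 2 * j + 1 := by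
  rw [h j hj]
  exact rk_at hY hN

theorem code_Q (hX : St N X) (hY : St N Y) {s1 s2 s3 s4 : ℕ} (h : ∀ j < s1, X j = Y j)
    (hw : Q4 X Y s1 s2 s3 s4 N) : code N X Y = (List.range' 0 N).map (cQ s1 s2 s3 s4) := by
  obtain ⟨p1, p2, p3, p4, v1, v2, v3, v4, v5⟩ := hw
  apply code_eq
  intro j hj
  unfold cQ
  split_ifs with g1 g2 g3
  · exact rk_shared hY h g1 hj
  · refine rk_gap (by omega) (fun i hi => ?_) (fun i h1 h2 => ?_)
    · rw [← h i hi]
      exact hX i j (by omega) hj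
    · have := hX.le (show j ≤ s3 - 1 by omega) (by omega)
      have := hY.le h1 h2
      omega
  · refine rk_gap (by omega) (fun i hi => ?_) (fun i h1 h2 => ?_)
    · have := hY.le (show i ≤ s2 - 1 by omega) (by omega)
      have := hX.le (show s3 ≤ j by omega) (by omega)
      omega
    · have := hX.le (show j ≤ s4 - 1 by omega) (by omega)
      have := hY.le h1 h2
      omega
  · refine rk_gap (by omega) (fun i hi => ?_) (fun i h1 h2 => ?_)
    · have := hY.le (show i ≤ s3 - 1 by omega) (by omega)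
      have := hX.le (show s4 ≤ j by omega) (by omega)
      omega
    · have := hX.le (show j ≤ N - 1 by omega) (by omega)
      have := hY.le h1 h2
      omega

theorem code_L (hX : St N X) (hY : St N Y) {s1 s2 s3 s4 : ℕ} (h : ∀ j < s1, X j = Y j)
    (hw : L4 X Y s1 s2 s3 s4 N) : code N X Y = (List.range' 0 N).map (cL s1 s2 s3 s4) := by
  obtain ⟨p1, p2, p3, p4, v1, v2, v3, v4, v5⟩ := hw
  apply code_eq
  intro j hj
  unfold cL
  split_ifs with g1 g2 g3
  · exact rk_shared hY h g1 hj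
  · refine rk_gap (by omega) (fun i hi => ?_) (fun i h1 h2 => ?_)
    · rw [← h i hi]
      exact hX i j (by omega) hj
    · have := hX.le (show j ≤ s3 - 1 by omega) (by omega)
      have := hY.le h1 h2
      omega
  · refine rk_gap (by omega) (fun i hi => ?_) (fun i h1 h2 => ?_)
    · have := hY.le (show i ≤ s2 - 1 by omega) (by omega)
      have := hX.le (show s3 ≤ j by omega) (by omega)
      omega
    · have := hX.le (show j ≤ s4 - 1 by omega) (by omega)
      have := hY.le h1 h2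
      omega
  · refine rk_gap (by omega) (fun i hi => ?_) (fun i h1 h2 => ?_)
    · have := hY.le (show i ≤ s4 - 1 by omega) (by omega)
      have := hX.le (show s4 ≤ j by omega) (by omega)
      omega
    · have := hX.le (show j ≤ N - 1 by omega) (by omega)
      have := hY.le h1 h2
      omega

theorem code_R (hX : St N X) (hY : St N Y) {s1 s2 s3 s4 : ℕ} (h : ∀ j < s1, X j = Y j)
    (hw : R4 X Y s1 s2 s3 s4 N) : code N X Y = (List.range' 0 N).map (cR s1 s2 s3 s4) := by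
  obtain ⟨p1, p2, p3, p4, v1, v2, v3, v4, v5⟩ := hw
  apply code_eq
  intro j hj
  unfold cR
  split_ifs with g1 g2 g3
  · exact rk_shared hY h g1 hj
  · refine rk_gap (by omega) (fun i hi => ?_) (fun i h1 h2 => ?_)
    · rw [← h i hi]
      exact hX i j (by omega) hj
    · have := hX.le (show j ≤ s2 - 1 by omega) (by omega)
      have := hY.le h1 h2
      omega
  · refine rk_gap (by omega) (fun i hi => ?_) (fun i h1 h2 => ?_)
    · have := hY.le (show i ≤ s2 - 1 by omega) (by omega)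
      have := hX.le (show s2 ≤ j by omega) (by omega)
      omega
    · have := hX.le (show j ≤ s4 - 1 by omega) (by omega)
      have := hY.le h1 h2
      omega
  · refine rk_gap (by omega) (fun i hi => ?_) (fun i h1 h2 => ?_)
    · have := hY.le (show i ≤ s3 - 1 by omega) (by omega)
      have := hX.le (show s4 ≤ j by omega) (by omega)
      omega
    · have := hX.le (show j ≤ N - 1 by omega) (by omega)
      have := hY.le h1 h2
      omega

theorem code_T (hX : St N X) (hY : St N Y) {s1 s2 s3 : ℕ} (h : ∀ j < s1, X j = Y j)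
    (hw : T3w X Y s1 s2 s3 N) : code N X Y = (List.range' 0 N).map (cT s1 s2 s3) := by
  obtain ⟨p1, p2, p3, v1, v2, v3⟩ := hw
  apply code_eq
  intro j hj
  unfold cT
  split_ifs with g1 g2
  · exact rk_shared hY h g1 hj
  · refine rk_gap (by omega) (fun i hi => ?_) (fun i h1 h2 => ?_)
    · rw [← h i hi]
      exact hX i j (by omega) hj
    · have := hX.le (show j ≤ s3 - 1 by omega) (by omega)
      have := hY.le h1 h2
      omega
  · refine rk_gap (by omega) (fun i hi => ?_) (fun i h1 h2 => ?_)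
    · have := hY.le (show i ≤ s2 - 1 by omega) (by omega)
      have := hX.le (show s3 ≤ j by omega) (by omega)
      omega
    · have := hX.le (show j ≤ N - 1 by omega) (by omega)
      have := hY.le h1 h2
      omega

end

/-- The sequence `x` from position `i` on. -/
def sh (i : ℕ) (x : ℕ → ℕ) : ℕ → ℕ := fun j => x (i + j)

theorem sh_St {i N : ℕ} {x : ℕ → ℕ} (h : Inc (i + N) x) : St N (sh i x) := by
  intro a b hab hb
  exact h _ _ (by omega) (by omega)

theorem sh_Q {i N s1 s2 s3 s4 : ℕ} {x y : ℕ → ℕ}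
    (h : Q4 x y (i + s1) (i + s2) (i + s3) (i + s4) (i + N)) :
    Q4 (sh i x) (sh i y) s1 s2 s3 s4 N := by
  obtain ⟨p1, p2, p3, p4, v1, v2, v3, v4, v5⟩ := h
  refine ⟨by omega, by omega, by omega, by omega, ?_, ?_, ?_, ?_, ?_⟩
  · simpa only [sh, show i + s3 - 1 = i + (s3 - 1) by omega] using v1
  · simpa only [sh, show i + s2 - 1 = i + (s2 - 1) by omega] using v2
  · simpa only [sh, show i + s4 - 1 = i + (s4 - 1) by omega] using v3
  · simpa only [sh, show i + s3 - 1 = i + (s3 - 1) by omega] using v4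
  · simpa only [sh, show i + N - 1 = i + (N - 1) by omega] using v5

theorem sh_L {i N s1 s2 s3 s4 : ℕ} {x y : ℕ → ℕ}
    (h : L4 x y (i + s1) (i + s2) (i + s3) (i + s4) (i + N)) :
    L4 (sh i x) (sh i y) s1 s2 s3 s4 N := by
  obtain ⟨p1, p2, p3, p4, v1, v2, v3, v4, v5⟩ := h
  refine ⟨by omega, by omega, by omega, by omega, ?_, ?_, ?_, ?_, ?_⟩
  · simpa only [sh, show i + s3 - 1 = i + (s3 - 1) by omega] using v1
  · simpa only [sh, show i + s2 - 1 = i + (s2 - 1) by omega] using v2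
  · simpa only [sh, show i + s4 - 1 = i + (s4 - 1) by omega] using v3
  · simpa only [sh, show i + s4 - 1 = i + (s4 - 1) by omega] using v4
  · simpa only [sh, show i + N - 1 = i + (N - 1) by omega] using v5

theorem sh_R {i N s1 s2 s3 s4 : ℕ} {x y : ℕ → ℕ}
    (h : R4 x y (i + s1) (i + s2) (i + s3) (i + s4) (i + N)) :
    R4 (sh i x) (sh i y) s1 s2 s3 s4 N := by
  obtain ⟨p1, p2, p3, p4, v1, v2, v3, v4, v5⟩ := h
  refine ⟨by omega, by omega, by omega, by omega, ?_, ?_, ?_, ?_, ?_⟩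
  · simpa only [sh, show i + s2 - 1 = i + (s2 - 1) by omega] using v1
  · simpa only [sh, show i + s2 - 1 = i + (s2 - 1) by omega] using v2
  · simpa only [sh, show i + s4 - 1 = i + (s4 - 1) by omega] using v3
  · simpa only [sh, show i + s3 - 1 = i + (s3 - 1) by omega] using v4
  · simpa only [sh, show i + N - 1 = i + (N - 1) by omega] using v5

theorem sh_T {i N s1 s2 s3 : ℕ} {x y : ℕ → ℕ}
    (h : T3w x y (i + s1) (i + s2) (i + s3) (i + N)) :
    T3w (sh i x) (sh i y) s1 s2 s3 N := by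
  obtain ⟨p1, p2, p3, v1, v2, v3⟩ := h
  refine ⟨by omega, by omega, by omega, ?_, ?_, ?_⟩
  · simpa only [sh, show i + s3 - 1 = i + (s3 - 1) by omega] using v1
  · simpa only [sh, show i + s2 - 1 = i + (s2 - 1) by omega] using v2
  · simpa only [sh, show i + N - 1 = i + (N - 1) by omega] using v3

/-- The words used by the explicit colourings. -/
inductive Wd
  | Q | L | R | T | low

/-- The code of the pair realising a word. -/
def wcode (N s1 s2 s3 s4 : ℕ) : Wd → List ℕ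
  | .Q => (List.range' 0 N).map (cQ s1 s2 s3 s4)
  | .L => (List.range' 0 N).map (cL s1 s2 s3 s4)
  | .R => (List.range' 0 N).map (cR s1 s2 s3 s4)
  | .T => (List.range' 0 N).map (cT s1 s2 s4)
  | .low => (List.range' 0 N).map (cT s2 s3 s4)

theorem wcode_exists {i N s1 s2 s3 s4 : ℕ} {H : Set (ℕ → ℕ)} {q : ℕ → ℕ}
    (hH : ∀ x ∈ H, Inc (i + N) x)
    (h : Node (i + N) H [i + s2, i + s3, i + s4] (i + s1) q) (w : Wd) :
    ∃ x ∈ H, ∃ y ∈ H, (∀ j < i + s1, x j = y j) ∧
      code N (sh i x) (sh i y) = wcode N s1 s2 s3 s4 w := by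
  cases w
  · obtain ⟨x, hx, y, hy, he, hw⟩ := Q4.exists h
    exact ⟨x, hx, y, hy, he, code_Q (sh_St (hH x hx)) (sh_St (hH y hy))
      (fun j hj => he (i + j) (by omega)) (sh_Q hw)⟩
  · obtain ⟨x, hx, y, hy, he, hw⟩ := L4.exists h
    exact ⟨x, hx, y, hy, he, code_L (sh_St (hH x hx)) (sh_St (hH y hy))
      (fun j hj => he (i + j) (by omega)) (sh_L hw)⟩
  · obtain ⟨x, hx, y, hy, he, hw⟩ := R4.exists h
    exact ⟨x, hx, y, hy, he, code_R (sh_St (hH x hx)) (sh_St (hH y hy))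
      (fun j hj => he (i + j) (by omega)) (sh_R hw)⟩
  · obtain ⟨x, hx, y, hy, he, hw⟩ := T3w.exists h
    exact ⟨x, hx, y, hy, he, code_T (sh_St (hH x hx)) (sh_St (hH y hy))
      (fun j hj => he (i + j) (by omega)) (sh_T hw)⟩
  · obtain ⟨x, hx, y, hy, he, hw⟩ := T3w.exists_low h
    have hlt : i + s1 < i + s2 := h.1
    exact ⟨x, hx, y, hy, fun j hj => he j (by omega), code_T (sh_St (hH x hx)) (sh_St (hH y hy))
      (fun j hj => he (i + j) (by omega)) (sh_T hw)⟩

/-- The first difference can be read off the code. -/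
theorem first_diff {N : ℕ} {X Y : ℕ → ℕ} (hY : St N Y) {p : List ℕ} (hp : code N X Y = p)
    {s : ℕ} (hs : s < N) (h1 : ∀ j < s, p[j]? = some (2 * j + 1)) (h2 : p[s]? = some (2 * s)) :
    (∀ j < s, X j = Y j) ∧ X s < Y s := by
  have hget : ∀ j < N, p[j]? = some (rk N Y (X j)) := by
    intro j hj
    rw [← hp, code, List.getElem?_map, List.getElem?_range' (by omega)]
    simp
  constructor
  · intro j hj
    have h3 := h1 j hj
    rw [hget j (by omega)] at h3
    have h4 : rk N Y (X j) = 2 * j + 1 := by simpa using h3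
    rcases rk_cases hY (X j) with ⟨q, q1, q2, q3, q4⟩ | ⟨q, q1, q2, q4⟩
    · omega
    · obtain rfl : q = j := by omega
      exact q2
  · rw [hget s hs] at h2
    have h4 : rk N Y (X s) = 2 * s := by simpa using h2
    rcases rk_cases hY (X s) with ⟨q, q1, q2, q3, q4⟩ | ⟨q, q1, q2, q4⟩
    · obtain rfl : q = s := by omega
      exact q3 q le_rfl hs
    · omega

/-- Assembling an explicit colouring of the last `N` positions. -/
theorem ub_explicit {i N M : ℕ} (PF : List (List ℕ))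
    (rule : ℕ → ℕ → ℕ → ℕ → Wd)
    (hrule : ∀ s4 < N, ∀ s3 < s4, ∀ s2 < s3, ∀ s1 < s2,
      wcode N s1 s2 s3 s4 (rule s1 s2 s3 s4) ∈ PF)
    (hfd : ∀ p ∈ PF, ∃ s < N, (∀ j < s, p[j]? = some (2 * j + 1)) ∧ p[s]? = some (2 * s))
    (hno : ∀ x : Fin (M + 1) → ℕ → ℕ, (∀ k, St N (x k)) →
      (∀ k l, k < l → code N (x k) (x l) ∈ PF) → False) : UB (i + N) i M := by
  have := ub_step (n := i + N) (i := i) (m := N) (N := M) (M := 1)
    (fun x y => (∀ j < i, x j = y j) ∧ code N (sh i x) (sh i y) ∈ PF) ?_ ?_ ?_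
    (ub_triv (by omega))
  · rwa [Nat.mul_one] at this
  · rintro x y hx hy ⟨h1, h2⟩
    obtain ⟨s, hs, h3, h4⟩ := hfd _ h2
    obtain ⟨h5, h6⟩ := first_diff (sh_St hy) rfl hs h3 h4
    refine ⟨i + s, by omega, by omega, fun j hj => ?_, h6⟩
    rcases Nat.lt_or_ge j i with g | g
    · exact h1 j g
    · have := h5 (j - i) (by omega)
      simpa only [sh, show i + (j - i) = j by omega] using this
  · intro H s s2 s3 s4 q hH h1 h2 hNd
    have o1 : s < s2 ∧ s2 < s3 ∧ s3 < s4 ∧ s4 < i + N := by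
      obtain ⟨o1, h0⟩ := hNd
      obtain ⟨_, _, _, o2, h1⟩ := h0 0
      obtain ⟨_, _, _, o3, h2⟩ := h1 0
      obtain ⟨_, _, _, o4, _⟩ := h2 0
      exact ⟨o1, o2, o3, o4⟩
    obtain ⟨a, rfl⟩ := Nat.exists_eq_add_of_le h1
    obtain ⟨b, rfl⟩ := Nat.exists_eq_add_of_le (show i ≤ s2 by omega)
    obtain ⟨c, rfl⟩ := Nat.exists_eq_add_of_le (show i ≤ s3 by omega)
    obtain ⟨d, rfl⟩ := Nat.exists_eq_add_of_le (show i ≤ s4 by omega)
    obtain ⟨x, hx, y, hy, he, hc⟩ := wcode_exists hH hNd (rule a b c d)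
    refine ⟨x, hx, y, hy, he, fun j hj => he j (by omega), ?_⟩
    rw [hc]
    exact hrule d (by omega) c (by omega) b (by omega) a (by omega)
  · intro x hx h
    exact hno (fun k => sh i (x k)) (fun k => sh_St (hx k)) fun k l hkl => (h k l hkl).2

end Pool.Agent.Helper77.EX
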