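import Pool.Agent.Helper77.EX.Rank

/-!
Functions on explicit tables which are evaluated by the kernel, and their correctness.
-/

namespace Pool.Agent.Helper77.EX

open Pool.Agent.Helper18.EH Pool.Agent.Helper77.EH

/-- Evaluate `n`, then apply `g`. -/
noncomputable def strict {α : Type} (n : ℕ) (g : ℕ → α) : α :=
  Nat.rec (motive := fun _ => α) (g 0) (fun k _ => g (Nat.succ k)) n

theorem strict_eq {α : Type} (n : ℕ) (g : ℕ → α) : strict n g = g n := by
  cases n <;> rfl

/-- The entry number `n` of a list of numbers (zero if there is none). -/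
noncomputable def nth (l : List ℕ) (n : ℕ) : ℕ :=
  List.rec (motive := fun _ => ℕ → ℕ) (fun _ => 0)
    (fun a _ ih n => Nat.rec (motive := fun _ => ℕ) a (fun k _ => ih k) n) l n

theorem nth_map (f : ℕ → ℕ) : ∀ (N s q : ℕ), q < N →
    nth ((List.range' s N).map f) q = f (s + q)
  | 0, _, _, h => absurd h (Nat.not_lt_zero _)
  | N + 1, s, 0, _ => rfl
  | N + 1, s, q + 1, h => by
    have := nth_map f N (s + 1) q (by omega)
    rw [List.range'_succ, List.map_cons]
    show nth ((List.range' (s + 1) N).map f) q = _
    rw [this]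
    congr 1
    omega

/-- The code of a pair of sequences: the list of the ranks of the terms of `X` in `Y`. -/
def code (N : ℕ) (X Y : ℕ → ℕ) : List ℕ := (List.range' 0 N).map fun j => rk N Y (X j)

theorem nth_code {N q : ℕ} {X Y : ℕ → ℕ} (h : q < N) : nth (code N X Y) q = rk N Y (X q) := by
  unfold code
  rw [nth_map _ _ _ _ h, Nat.zero_add]

/-- Lower end of a window. -/
noncomputable def loF (b : List ℕ) (r : ℕ) : ℕ :=
  Bool.rec (motive := fun _ => ℕ)
    (Nat.rec (motive := fun _ => ℕ) 0 (fun k _ => Nat.add (nth b k) (Nat.mod (nth b k) 2))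
      (Nat.div r 2))
    (nth b (Nat.div r 2)) (Nat.beq (Nat.mod r 2) 1)

/-- Upper end of a window. -/
noncomputable def hiF (M : ℕ) (b : List ℕ) (r : ℕ) : ℕ :=
  Bool.rec (motive := fun _ => ℕ)
    (Bool.rec (motive := fun _ => ℕ)
      (Nat.sub (nth b (Nat.div r 2)) (Nat.mod (nth b (Nat.div r 2)) 2)) M (Nat.ble M r))
    (nth b (Nat.div r 2)) (Nat.beq (Nat.mod r 2) 1)

theorem loF_even (b : List ℕ) (q : ℕ) : loF b (2 * q) =
    if q = 0 then 0 else nth b (q - 1) + nth b (q - 1) % 2 := by
  unfold loF
  have h1 : Nat.beq (Nat.mod (2 * q) 2) 1 = false := by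
    have : Nat.mod (2 * q) 2 = 0 := show 2 * q % 2 = 0 by omega
    rw [this]
    rfl
  have h2 : Nat.div (2 * q) 2 = q := show 2 * q / 2 = q by omega
  rw [h1, h2]
  cases q with
  | zero => rfl
  | succ q => rfl

theorem loF_odd (b : List ℕ) (q : ℕ) : loF b (2 * q + 1) = nth b q := by
  unfold loF
  have h1 : Nat.beq (Nat.mod (2 * q + 1) 2) 1 = true := by
    have : Nat.mod (2 * q + 1) 2 = 1 := show (2 * q + 1) % 2 = 1 by omega
    rw [this]
    rfl
  have h2 : Nat.div (2 * q + 1) 2 = q := show (2 * q + 1) / 2 = q by omega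
  rw [h1, h2]

theorem hiF_even (M : ℕ) (b : List ℕ) (q : ℕ) : hiF M b (2 * q) =
    if M ≤ 2 * q then M else nth b q - nth b q % 2 := by
  unfold hiF
  have h1 : Nat.beq (Nat.mod (2 * q) 2) 1 = false := by
    have : Nat.mod (2 * q) 2 = 0 := show 2 * q % 2 = 0 by omega
    rw [this]
    rfl
  have h2 : Nat.div (2 * q) 2 = q := show 2 * q / 2 = q by omega
  rw [h1, h2]
  by_cases h : M ≤ 2 * q
  · rw [if_pos h, show Nat.ble M (2 * q) = true from Nat.ble_eq_true_of_le h]
  · have : Nat.ble M (2 * q) = false := by
      cases hb : Nat.ble M (2 * q) with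
      | false => rfl
      | true => exact absurd (Nat.le_of_ble_eq_true hb) h
    rw [if_neg h, this]
    rfl

theorem hiF_odd (M : ℕ) (b : List ℕ) (q : ℕ) : hiF M b (2 * q + 1) = nth b q := by
  unfold hiF
  have h1 : Nat.beq (Nat.mod (2 * q + 1) 2) 1 = true := by
    have : Nat.mod (2 * q + 1) 2 = 1 := show (2 * q + 1) % 2 = 1 by omega
    rw [this]
    rfl
  have h2 : Nat.div (2 * q + 1) 2 = q := show (2 * q + 1) / 2 = q by omega
  rw [h1, h2]

theorem loF_code {N : ℕ} {Y Z : ℕ → ℕ} (hY : St N Y) (v : ℕ) :
    loF (code N Y Z) (rk N Y v) = loS N Y Z (rk N Y v) := by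
  rcases rk_cases hY v with ⟨q, q1, q2, q3, q4⟩ | ⟨q, q1, q2, q4⟩
  · rw [q4, loF_even, loS_even]
    split_ifs with h
    · rfl
    · rw [nth_code (by omega)]
  · rw [q4, loF_odd, loS_odd, nth_code q1]

theorem hiF_code {N : ℕ} {Y Z : ℕ → ℕ} (hY : St N Y) (v : ℕ) :
    hiF (2 * N) (code N Y Z) (rk N Y v) = hiS N Y Z (rk N Y v) := by
  rcases rk_cases hY v with ⟨q, q1, q2, q3, q4⟩ | ⟨q, q1, q2, q4⟩
  · rw [q4, hiF_even, hiS_even]
    by_cases h : N ≤ q
    · rw [if_pos h, if_pos (by omega)]
    · rw [if_neg h, if_neg (by omega), nth_code (by omega)]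
  · rw [q4, hiF_odd, hiS_odd, nth_code q1]

/-- Compute the windows for the terms of `a`, in reverse order, and apply `k`. -/
noncomputable def win {α : Type} (M : ℕ) (b : List ℕ) (a : List ℕ) (acc : List (ℕ × ℕ))
    (k : List (ℕ × ℕ) → α) : α :=
  List.rec (motive := fun _ => List (ℕ × ℕ) → α) (fun acc => k acc)
    (fun r _ ih acc => strict (loF b r) fun l => strict (hiF M b r) fun h => ih ((l, h) :: acc))
    a acc

theorem win_eq {α : Type} (M : ℕ) (b : List ℕ) (k : List (ℕ × ℕ) → α) : ∀ (a : List ℕ)
    (acc : List (ℕ × ℕ)), win M b a acc k =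
      k ((a.map fun r => (loF b r, hiF M b r)).reverse ++ acc)
  | [], _ => rfl
  | r :: a, acc => by
    show strict (loF b r) (fun l => strict (hiF M b r) fun h => win M b a ((l, h) :: acc) k) = _
    rw [strict_eq, strict_eq, win_eq M b k a]
    simp

/-- All windows contain the corresponding entries. -/
noncomputable def okL (w : List (ℕ × ℕ)) (c : List ℕ) : Bool :=
  List.rec (motive := fun _ => List ℕ → Bool) (fun _ => true)
    (fun p _ ih c => List.rec (motive := fun _ => Bool) true
      (fun x cs _ => Bool.rec (motive := fun _ => Bool) false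
        (Bool.rec (motive := fun _ => Bool) false (ih cs) (Nat.ble x p.2)) (Nat.ble p.1 x)) c)
    w c

theorem okL_map {ι : Type} (f : ι → ℕ × ℕ) (g : ι → ℕ) : ∀ l : List ι,
    (∀ j ∈ l, (f j).1 ≤ g j ∧ g j ≤ (f j).2) → okL (l.map f) (l.map g) = true
  | [], _ => rfl
  | j :: l, h => by
    obtain ⟨h1, h2⟩ := h j (List.mem_cons_self ..)
    have ih := okL_map f g l fun i hi => h i (List.mem_cons_of_mem _ hi)
    show Bool.rec (motive := fun _ => Bool) false
        (Bool.rec (motive := fun _ => Bool) false (okL (l.map f) (l.map g))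
          (Nat.ble (g j) (f j).2)) (Nat.ble (f j).1 (g j)) = true
    rw [Nat.ble_eq_true_of_le h1, Nat.ble_eq_true_of_le h2, ih]

/-- The windows computed from the codes contain the entries of the third code. -/
theorem okL_code {N : ℕ} {X Y Z : ℕ → ℕ} (hY : St N Y) (hZ : St N Z) :
    okL (((code N X Y).map fun r => (loF (code N Y Z) r, hiF (2 * N) (code N Y Z) r)).reverse)
      (code N X Z).reverse = true := by
  have e1 : ((code N X Y).map fun r => (loF (code N Y Z) r, hiF (2 * N) (code N Y Z) r)).reverse
      = (List.range' 0 N).reverse.map fun j =>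
        (loS N Y Z (rk N Y (X j)), hiS N Y Z (rk N Y (X j))) := by
    rw [show code N X Y = (List.range' 0 N).map fun j => rk N Y (X j) from rfl, List.map_map,
      ← List.map_reverse]
    apply List.map_congr_left
    intro j _
    show (loF (code N Y Z) (rk N Y (X j)), hiF (2 * N) (code N Y Z) (rk N Y (X j))) = _
    rw [loF_code hY, hiF_code hY]
  have e2 : (code N X Z).reverse = (List.range' 0 N).reverse.map fun j => rk N Z (X j) := by
    rw [code, ← List.map_reverse]
  rw [e1, e2]
  apply okL_map
  intro j _
  exact law hY hZ (X j)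

/-- Membership in a list of numbers. -/
noncomputable def memb (k : ℕ) (cs : List ℕ) : Bool :=
  List.rec (motive := fun _ => Bool) false
    (fun c _ ih => Bool.rec (motive := fun _ => Bool) ih true (Nat.beq k c)) cs

/-- The row number `j` of a sparse matrix. -/
noncomputable def rowOf (j : ℕ) (sp : List (ℕ × List ℕ)) : List ℕ :=
  List.rec (motive := fun _ => List ℕ) []
    (fun p _ ih => Bool.rec (motive := fun _ => List ℕ) ih p.2 (Nat.beq j p.1)) sp

/-- Check that every list in `PR` fitting the windows `w` has its index in `cs`. -/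
noncomputable def chkC (w : List (ℕ × ℕ)) (cs : List ℕ) (PR : List (List ℕ)) (k : ℕ) : Bool :=
  List.rec (motive := fun _ => ℕ → Bool) (fun _ => true)
    (fun c _ ih k => Bool.rec (motive := fun _ => Bool) (ih (Nat.succ k))
      (Bool.rec (motive := fun _ => Bool) false (ih (Nat.succ k)) (memb k cs)) (okL w c)) PR k

theorem chkC_sound (w : List (ℕ × ℕ)) (cs : List ℕ) : ∀ (PR : List (List ℕ)) (k : ℕ),
    chkC w cs PR k = true → ∀ (m : ℕ) (c : List ℕ), PR[m]? = some c → okL w c = true →
      memb (k + m) cs = true
  | [], _, _, m, c, h1, _ => by simp at h1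
  | c' :: PR, k, h, m, c, h1, h2 => by
    have h' : Bool.rec (motive := fun _ => Bool) (chkC w cs PR (k + 1))
      (Bool.rec (motive := fun _ => Bool) false (chkC w cs PR (k + 1)) (memb k cs))
        (okL w c') = true := h
    cases m with
    | zero =>
      have : c' = c := by simpa using h1
      subst this
      rw [h2] at h'
      have hm : memb k cs = true := by
        cases hm : memb k cs with
        | true => rfl
        | false => rw [hm] at h'; exact absurd h' (by simp)
      exact hm
    | succ m =>
      have h3 : PR[m]? = some c := by simpa using h1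
      have h4 : chkC w cs PR (k + 1) = true := by
        cases ho : okL w c' with
        | false => rw [ho] at h'; exact h'
        | true =>
          rw [ho] at h'
          cases hm : memb k cs with
          | true => rw [hm] at h'; exact h'
          | false => rw [hm] at h'; exact absurd h' (by simp)
      have := chkC_sound w cs PR (k + 1) h4 m c h3 h2
      rwa [show k + (m + 1) = k + 1 + m by omega]

/-- Check one row of the table of triangles. -/
noncomputable def chkB (M : ℕ) (a : List ℕ) (sp : List (ℕ × List ℕ)) (PR bs : List (List ℕ))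
    (j : ℕ) : Bool :=
  List.rec (motive := fun _ => ℕ → Bool) (fun _ => true)
    (fun b _ ih j => Bool.rec (motive := fun _ => Bool) false (ih (Nat.succ j))
      (win M b a [] fun w => chkC w (rowOf j sp) PR 0)) bs j

theorem chkB_sound (M : ℕ) (a : List ℕ) (sp : List (ℕ × List ℕ)) (PR : List (List ℕ)) :
    ∀ (bs : List (List ℕ)) (j : ℕ), chkB M a sp PR bs j = true → ∀ (m : ℕ) (b : List ℕ),
      bs[m]? = some b → chkC ((a.map fun r => (loF b r, hiF M b r)).reverse)
        (rowOf (j + m) sp) PR 0 = true
  | [], _, _, m, c, h1 => by simp at h1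
  | b' :: bs, j, h, m, b, h1 => by
    have h' : Bool.rec (motive := fun _ => Bool) false (chkB M a sp PR bs (j + 1))
      (win M b' a [] fun w => chkC w (rowOf j sp) PR 0) = true := h
    have h2 : (win M b' a [] fun w => chkC w (rowOf j sp) PR 0) = true := by
      cases ho : (win M b' a [] fun w => chkC w (rowOf j sp) PR 0) with
      | true => rfl
      | false => rw [ho] at h'; exact h'
    cases m with
    | zero =>
      have : b' = b := by simpa using h1
      subst this
      rw [win_eq, List.append_nil] at h2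
      exact h2
    | succ m =>
      have h3 : bs[m]? = some b := by simpa using h1
      rw [h2] at h'
      have := chkB_sound M a sp PR bs (j + 1) h' m b h3
      rwa [show j + (m + 1) = j + 1 + m by omega]

/-- The entry number `i` of a list of lists. -/
noncomputable def getL {α : Type} (l : List (List α)) (i : ℕ) : List α :=
  List.rec (motive := fun _ => ℕ → List α) (fun _ => [])
    (fun a _ ih n => Nat.rec (motive := fun _ => List α) a (fun k _ => ih k) n) l i

theorem getL_eq {α : Type} : ∀ (l : List (List α)) (i : ℕ) (a : List α), l[i]? = some a →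
    getL l i = a
  | [], _, _, h => by simp at h
  | b :: l, 0, a, h => by
    have : b = a := by simpa using h
    exact this
  | b :: l, i + 1, a, h => by
    have : l[i]? = some a := by simpa using h
    exact getL_eq l i a this

/-- Check the row number `i`. -/
noncomputable def chkI (M : ℕ) (PF PR : List (List ℕ)) (TB : List (List (ℕ × List ℕ)))
    (i : ℕ) : Bool := chkB M (getL PF i) (getL TB i) PR PF 0

/-- Check `n` indices starting at `s`. -/
noncomputable def allF (f : ℕ → Bool) (s n : ℕ) : Bool :=
  Nat.rec (motive := fun _ => Bool) true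
    (fun k ih => Bool.rec (motive := fun _ => Bool) false ih (f (Nat.add s k))) n

theorem allF_sound (f : ℕ → Bool) (s : ℕ) : ∀ n : ℕ, allF f s n = true →
    ∀ k, s ≤ k → k < s + n → f k = true
  | 0, _, k, h1, h2 => by omega
  | n + 1, h, k, h1, h2 => by
    have h' : Bool.rec (motive := fun _ => Bool) false (allF f s n) (f (s + n)) = true := h
    have h3 : f (s + n) = true := by
      cases ho : f (s + n) with
      | true => rfl
      | false => rw [ho] at h'; exact h'
    rw [h3] at h'
    rcases Nat.lt_or_ge k (s + n) with g | g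
    · exact allF_sound f s n h' k h1 g
    · obtain rfl : k = s + n := by omega
      exact h3

/-- The triangles listed in the table. -/
def Tr (TB : List (List (ℕ × List ℕ))) (i j k : ℕ) : Prop :=
  memb k (rowOf j (getL TB i)) = true

theorem tri_sound {N : ℕ} {PF PR : List (List ℕ)} {TB : List (List (ℕ × List ℕ))}
    (hPR : PR = PF.map List.reverse) {i : ℕ} (h : chkI (2 * N) PF PR TB i = true)
    {X Y Z : ℕ → ℕ} (hY : St N Y) (hZ : St N Z) {j k : ℕ} (h1 : PF[i]? = some (code N X Y))
    (h2 : PF[j]? = some (code N Y Z)) (h3 : PF[k]? = some (code N X Z)) : Tr TB i j k := by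
  unfold chkI at h
  rw [getL_eq PF i _ h1] at h
  have h4 := chkB_sound _ _ _ _ _ _ h j _ h2
  have h5 : PR[k]? = some (code N X Z).reverse := by
    rw [hPR, List.getElem?_map, h3]
    rfl
  have h6 := chkC_sound _ _ _ _ h4 k _ h5 (okL_code hY hZ)
  rw [Nat.zero_add, Nat.zero_add] at h6
  exact h6

end Pool.Agent.Helper77.EX
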