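import Pool.Agent.Helper77.EX.Kern

/-!
The check that there is no clique of size five, from the table of triangles.
-/

namespace Pool.Agent.Helper77.EX

open Pool.Agent.Helper18.EH Pool.Agent.Helper77.EH

/-- `f` holds for all members of a list. -/
noncomputable def allL {α : Type} (f : α → Bool) (l : List α) : Bool :=
  List.rec (motive := fun _ => Bool) true
    (fun x _ ih => Bool.rec (motive := fun _ => Bool) false ih (f x)) l

theorem allL_sound {α : Type} (f : α → Bool) : ∀ l : List α, allL f l = true →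
    ∀ x ∈ l, f x = true
  | [], _, x, hx => by simp at hx
  | y :: l, h, x, hx => by
    have h' : Bool.rec (motive := fun _ => Bool) false (allL f l) (f y) = true := h
    have h3 : f y = true := by
      cases ho : f y with
      | true => rfl
      | false => rw [ho] at h'; exact h'
    rw [h3] at h'
    rcases List.mem_cons.1 hx with rfl | hx
    · exact h3
    · exact allL_sound f l h' x hx

/-- No member of `xs` is a member of `ys`. -/
noncomputable def disj (xs ys : List ℕ) : Bool :=
  List.rec (motive := fun _ => Bool) true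
    (fun x _ ih => Bool.rec (motive := fun _ => Bool) ih false (memb x ys)) xs

theorem memb_mem (k : ℕ) : ∀ cs : List ℕ, memb k cs = true → k ∈ cs
  | [], h => Bool.noConfusion (show false = true from h)
  | c :: cs, h => by
    have h' : Bool.rec (motive := fun _ => Bool) (memb k cs) true (Nat.beq k c) = true := h
    cases hb : Nat.beq k c with
    | true => rw [Nat.eq_of_beq_eq_true hb]; exact List.mem_cons_self ..
    | false => rw [hb] at h'; exact List.mem_cons_of_mem _ (memb_mem k cs h')

theorem disj_sound (ys : List ℕ) : ∀ xs : List ℕ, disj xs ys = true → ∀ x ∈ xs,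
    memb x ys = false
  | [], _, x, hx => by simp at hx
  | y :: xs, h, x, hx => by
    have h' : Bool.rec (motive := fun _ => Bool) (disj xs ys) false (memb y ys) = true := h
    have h3 : memb y ys = false := by
      cases ho : memb y ys with
      | false => rfl
      | true => rw [ho] at h'; exact absurd h' (by simp)
    rw [h3] at h'
    rcases List.mem_cons.1 hx with rfl | hx
    · exact h3
    · exact disj_sound ys xs h' x hx

theorem rowOf_mem (c b : ℕ) : ∀ sp : List (ℕ × List ℕ), memb c (rowOf b sp) = true →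
    ∃ p ∈ sp, p.1 = b ∧ c ∈ p.2
  | [], h => Bool.noConfusion (show false = true from h)
  | p :: sp, h => by
    have h' : memb c (Bool.rec (motive := fun _ => List ℕ) (rowOf b sp) p.2 (Nat.beq b p.1))
      = true := h
    cases hb : Nat.beq b p.1 with
    | true =>
      rw [hb] at h'
      exact ⟨p, List.mem_cons_self .., (Nat.eq_of_beq_eq_true hb).symm, memb_mem _ _ h'⟩
    | false =>
      rw [hb] at h'
      obtain ⟨p', h1, h2⟩ := rowOf_mem c b sp h'
      exact ⟨p', List.mem_cons_of_mem _ h1, h2⟩

/-- The check for all cliques of size four with lowest edge `a`. -/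
noncomputable def cliqA (TB : List (List (ℕ × List ℕ))) (U : List (List ℕ)) (a : ℕ) : Bool :=
  allL (fun p : ℕ × List ℕ => allL (fun q : ℕ × List ℕ =>
    Bool.rec (motive := fun _ => Bool)
      (allL (fun c => allL (fun e => disj (rowOf e (getL TB a)) (rowOf q.1 (getL TB c))) q.2) p.2)
      true
      (Bool.rec (motive := fun _ => Bool) false
        (Bool.rec (motive := fun _ => Bool) true false (memb q.1 (getL U p.1)))
        (memb p.1 (getL U a)))) (getL TB p.1)) (getL TB a)

theorem cliqA_sound {TB : List (List (ℕ × List ℕ))} {U : List (List ℕ)} {a : ℕ}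
    (h : cliqA TB U a = true) {b c d e f : ℕ} (h1 : Tr TB a b c) (h2 : Tr TB b d e)
    (h3 : Tr TB a e f) (h4 : Tr TB c d f) :
    memb b (getL U a) = true ∧ memb d (getL U b) = false := by
  obtain ⟨p, p1, rfl, p3⟩ := rowOf_mem _ _ _ h1
  obtain ⟨q, q1, rfl, q3⟩ := rowOf_mem _ _ _ h2
  have h5 := allL_sound _ _ (allL_sound _ _ h p p1) q q1
  cases hb : memb p.1 (getL U a) with
  | true =>
    cases hd : memb q.1 (getL U p.1) with
    | false => exact ⟨rfl, rfl⟩
    | true =>
      exfalso
      rw [hb, hd] at h5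
      have h6 := disj_sound _ _ (allL_sound _ _ (allL_sound _ _ h5 c p3) e q3) f
        (memb_mem _ _ h3)
      exact absurd (h6.symm.trans h4) (by decide)
  | false =>
    exfalso
    rw [hb] at h5
    have h6 := disj_sound _ _ (allL_sound _ _ (allL_sound _ _ h5 c p3) e q3) f
      (memb_mem _ _ h3)
    exact absurd (h6.symm.trans h4) (by decide)

/-- If all the checks succeed, there are no five sequences with all codes in `PF`. -/
theorem no_five {N : ℕ} {PF PR : List (List ℕ)} {TB : List (List (ℕ × List ℕ))}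
    {U : List (List ℕ)} (hPR : PR = PF.map List.reverse)
    (h : ∀ i < PF.length, chkI (2 * N) PF PR TB i = true)
    (h' : ∀ i < PF.length, cliqA TB U i = true) (x : Fin 5 → ℕ → ℕ) (hx : ∀ k, St N (x k))
    (hc : ∀ k l, k < l → code N (x k) (x l) ∈ PF) : False := by
  have hi : ∀ k l, k < l → ∃ i, i < PF.length ∧ PF[i]? = some (code N (x k) (x l)) := by
    intro k l hkl
    obtain ⟨i, hi, he⟩ := List.getElem_of_mem (hc k l hkl)
    exact ⟨i, hi, by rw [List.getElem?_eq_getElem hi, he]⟩
  obtain ⟨e01, b01, g01⟩ := hi 0 1 (by decide)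
  obtain ⟨e12, b12, g12⟩ := hi 1 2 (by decide)
  obtain ⟨e23, b23, g23⟩ := hi 2 3 (by decide)
  obtain ⟨e34, b34, g34⟩ := hi 3 4 (by decide)
  obtain ⟨e02, b02, g02⟩ := hi 0 2 (by decide)
  obtain ⟨e13, b13, g13⟩ := hi 1 3 (by decide)
  obtain ⟨e24, b24, g24⟩ := hi 2 4 (by decide)
  obtain ⟨e03, b03, g03⟩ := hi 0 3 (by decide)
  obtain ⟨e14, b14, g14⟩ := hi 1 4 (by decide)
  have t012 := tri_sound hPR (h _ b01) (hx 1) (hx 2) g01 g12 g02
  have t123 := tri_sound hPR (h _ b12) (hx 2) (hx 3) g12 g23 g13
  have t013 := tri_sound hPR (h _ b01) (hx 1) (hx 3) g01 g13 g03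
  have t023 := tri_sound hPR (h _ b02) (hx 2) (hx 3) g02 g23 g03
  have t234 := tri_sound hPR (h _ b23) (hx 3) (hx 4) g23 g34 g24
  have t124 := tri_sound hPR (h _ b12) (hx 2) (hx 4) g12 g24 g14
  have t134 := tri_sound hPR (h _ b13) (hx 3) (hx 4) g13 g34 g14
  have c1 := cliqA_sound (h' _ b01) t012 t123 t013 t023
  have c2 := cliqA_sound (h' _ b12) t123 t234 t124 t134
  exact absurd (c1.2.symm.trans c2.1) (by decide)

/-- If the checks succeed with an empty table, there are no three sequences with all codes in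
`PF`. -/
theorem no_three {N : ℕ} {PF PR : List (List ℕ)} (hPR : PR = PF.map List.reverse)
    (h : ∀ i < PF.length, chkI (2 * N) PF PR [] i = true) (x : Fin 3 → ℕ → ℕ)
    (hx : ∀ k, St N (x k)) (hc : ∀ k l, k < l → code N (x k) (x l) ∈ PF) : False := by
  have hi : ∀ k l, k < l → ∃ i, i < PF.length ∧ PF[i]? = some (code N (x k) (x l)) := by
    intro k l hkl
    obtain ⟨i, hi, he⟩ := List.getElem_of_mem (hc k l hkl)
    exact ⟨i, hi, by rw [List.getElem?_eq_getElem hi, he]⟩
  obtain ⟨e01, b01, g01⟩ := hi 0 1 (by decide)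
  obtain ⟨e12, b12, g12⟩ := hi 1 2 (by decide)
  obtain ⟨e02, b02, g02⟩ := hi 0 2 (by decide)
  have t012 := tri_sound hPR (h _ b01) (hx 1) (hx 2) g01 g12 g02
  obtain ⟨p, p1, _⟩ := rowOf_mem _ _ _ t012
  simp [getL] at p1

end Pool.Agent.Helper77.EX
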