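import Pool.Agent.Helper77.EX.ChkA
import Pool.Agent.Helper77.EX.ChkB
import Pool.Agent.Helper77.EX.Hit

/-!
The last six positions need only two classes, the last nine only four.
-/

namespace Pool.Agent.Helper77.EX

open Pool.Agent.Helper18.EH Pool.Agent.Helper77.EH

set_option maxRecDepth 100000

/-- The choice of the pattern for a tree splitting at the positions `s1, s2, s3, s4`, for the
last `N` positions. -/
def rule (N s1 s2 s3 s4 : ℕ) : Wd :=
  if s2 - s1 = 2 ∧ s3 - s2 = 1 ∧ s4 - s3 = 1 ∧ N - s4 = 2 then .R else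
  if s2 - s1 = 1 ∧ s3 - s2 = 3 ∧ s4 - s3 = 2 ∧ N - s4 = 3 then .R else
  if s2 - s1 = 3 ∧ s3 - s2 = 1 ∧ s4 - s3 = 2 ∧ N - s4 = 3 then .L else
  if (N - s1) % 3 = 2 then .Q else
  if (N - s1) % 3 = 0 then
    (if s2 - s1 = 1 ∧ s3 - s2 = 1 then .L else
     if s2 - s1 = 1 ∧ s4 - s3 = 1 then .low else
     if s2 - s1 = 1 then .L else
     if s4 - s3 = 1 then .L else
     if (s2 - s1) % 3 = 2 ∧ s3 - s2 ≤ 2 then .low else .R)
  else if s2 - s1 ≤ 2 then .T else .Q

/-- The codes of the rule are listed in `PF`, for trees with lowest splitting position `s4`. -/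
def RuleOK (N : ℕ) (PF : List (List ℕ)) (s4 : ℕ) : Prop := ∀ s3 < s4, ∀ s2 < s3, ∀ s1 < s2,
    wcode N s1 s2 s3 s4 (rule N s1 s2 s3 s4) ∈ PF

instance (N : ℕ) (PF : List (List ℕ)) (s4 : ℕ) : Decidable (RuleOK N PF s4) := by
  unfold RuleOK
  infer_instance

theorem rule6 : ∀ s4 < 6, RuleOK 6 PF6 s4 := by decide +kernel

theorem rule9 : ∀ s4 < 9, RuleOK 9 PF9 s4 := by decide +kernel

theorem fd6 : ∀ p ∈ PF6, ∃ s < 6, (∀ j < s, p[j]? = some (2 * j + 1)) ∧
    p[s]? = some (2 * s) := by decide +kernel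

theorem fd9 : ∀ p ∈ PF9, ∃ s < 9, (∀ j < s, p[j]? = some (2 * j + 1)) ∧
    p[s]? = some (2 * s) := by decide +kernel

theorem pr6 : PR6 = PF6.map List.reverse := by decide +kernel

theorem pr9 : PR9 = PF9.map List.reverse := by decide +kernel

theorem len6 : PF6.length = 14 := by decide +kernel

theorem len9 : PF9.length = 108 := by decide +kernel

theorem ub_six (i : ℕ) : UB (i + 6) i 2 := by
  refine ub_explicit PF6 (rule 6) rule6 fd6 fun x hx hc => no_three pr6 ?_ x hx hc
  intro k hk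
  rw [len6] at hk
  exact allF_sound _ _ _ chk6 k (by omega) (by omega)

theorem ub_nine (i : ℕ) : UB (i + 9) i 4 := by
  refine ub_explicit PF9 (rule 9) rule9 fd9 fun x hx hc => no_five (TB := TB9) (U := U9) pr9 ?_
    ?_ x hx hc
  · intro k hk
    rw [len9] at hk
    rcases Nat.lt_or_ge k 27 with g | g
    · exact allF_sound _ _ _ chk9_0 k (by omega) (by omega)
    · rcases Nat.lt_or_ge k 54 with g | g
      · exact allF_sound _ _ _ chk9_1 k (by omega) (by omega)
      · rcases Nat.lt_or_ge k 81 with g | g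
        · exact allF_sound _ _ _ chk9_2 k (by omega) (by omega)
        · exact allF_sound _ _ _ chk9_3 k (by omega) (by omega)
  · intro k hk
    rw [len9] at hk
    exact allF_sound _ _ _ clq9 k (by omega) (by omega)

end Pool.Agent.Helper77.EX
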