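import Pool.Agent.Helper77.EH.Frame

/-!
Ranks of a natural number relative to a finite increasing sequence, and the consistency
conditions for three sequences.
-/

namespace Pool.Agent.Helper77.EX

open Pool.Agent.Helper18.EH Pool.Agent.Helper77.EH

/-- `Y` is strictly increasing on `[0, N)`. -/
def St (N : ℕ) (Y : ℕ → ℕ) : Prop := ∀ a b, a < b → b < N → Y a < Y b

/-- The position of `v` relative to the first `N` terms of `Y`: it is `2 q + 1` if `v` is the
`q`-th term, and `2 q` if `v` is strictly between the terms number `q - 1` and `q`. -/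
def rk (N : ℕ) (Y : ℕ → ℕ) (v : ℕ) : ℕ :=
  Nat.count (fun j => Y j < v) N + Nat.count (fun j => Y j ≤ v) N

theorem count_of {p : ℕ → Prop} [DecidablePred p] {N q : ℕ} (hq : q ≤ N) (h1 : ∀ j < q, p j)
    (h2 : ∀ j, q ≤ j → j < N → ¬ p j) : Nat.count p N = q := by
  obtain ⟨d, rfl⟩ := Nat.exists_eq_add_of_le hq
  induction d with
  | zero => exact Nat.count_iff_forall.2 h1
  | succ d ih =>
    rw [← Nat.add_assoc, Nat.count_succ, ih (Nat.le_add_right _ _) fun j a b => h2 j a (by omega),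
      if_neg (h2 (q + d) (by omega) (by omega)), Nat.add_zero]

theorem rk_gap {N q v : ℕ} {Y : ℕ → ℕ} (hq : q ≤ N) (h1 : ∀ j < q, Y j < v)
    (h2 : ∀ j, q ≤ j → j < N → v < Y j) : rk N Y v = 2 * q := by
  unfold rk
  rw [count_of hq h1 fun j a b => not_lt.2 (h2 j a b).le,
    count_of hq (fun j a => (h1 j a).le) fun j a b => not_le.2 (h2 j a b), two_mul]

theorem rk_at {N q : ℕ} {Y : ℕ → ℕ} (hY : St N Y) (hq : q < N) : rk N Y (Y q) = 2 * q + 1 := by
  unfold rk
  rw [count_of (q := q) hq.le (fun j a => hY j q a hq) ?_,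
    count_of (q := q + 1) hq ?_ ?_]
  · omega
  · intro j hj
    rcases Nat.eq_or_lt_of_le (Nat.le_of_lt_succ hj) with rfl | h
    · exact le_rfl
    · exact (hY j q h hq).le
  · intro j a b
    exact not_le.2 (hY q j a b)
  · intro j a b
    rcases Nat.eq_or_lt_of_le a with rfl | h
    · exact lt_irrefl _
    · exact not_lt.2 (hY q j h b).le

theorem rk_cases {N : ℕ} {Y : ℕ → ℕ} (hY : St N Y) (v : ℕ) :
    (∃ q ≤ N, (∀ j < q, Y j < v) ∧ (∀ j, q ≤ j → j < N → v < Y j) ∧ rk N Y v = 2 * q) ∨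
    (∃ q < N, v = Y q ∧ rk N Y v = 2 * q + 1) := by
  classical
  by_cases hex : ∃ j, j < N ∧ v ≤ Y j
  · obtain ⟨h1, h2⟩ := Nat.find_spec hex
    have h3 : ∀ j < Nat.find hex, Y j < v := by
      intro j hj
      by_contra hc
      exact Nat.find_min hex hj ⟨hj.trans h1, not_lt.1 hc⟩
    rcases Nat.eq_or_lt_of_le h2 with h | h
    · right
      exact ⟨_, h1, h, (congrArg (rk N Y) h).trans (rk_at hY h1)⟩
    · left
      have h4 : ∀ j, Nat.find hex ≤ j → j < N → v < Y j := by
        intro j a b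
        rcases Nat.eq_or_lt_of_le a with h' | h'
        · exact h' ▸ h
        · exact h.trans (hY _ _ h' b)
      exact ⟨_, h1.le, h3, h4, rk_gap h1.le h3 h4⟩
  · left
    have h3 : ∀ j < N, Y j < v := by
      intro j hj
      by_contra hc
      exact hex ⟨j, hj, not_lt.1 hc⟩
    exact ⟨N, le_rfl, h3, fun j a b => absurd b (by omega),
      rk_gap le_rfl h3 fun j a b => absurd b (by omega)⟩

theorem rk_mono {N : ℕ} {Z : ℕ → ℕ} (hZ : St N Z) {u v : ℕ} (huv : u < v) :
    rk N Z u + rk N Z u % 2 ≤ rk N Z v - rk N Z v % 2 := by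
  rcases rk_cases hZ u with ⟨q, q1, q2, q3, q4⟩ | ⟨q, q1, q2, q4⟩ <;>
  rcases rk_cases hZ v with ⟨r, r1, r2, r3, r4⟩ | ⟨r, r1, r2, r4⟩
  · have : q ≤ r := by
      by_contra hc
      have a := q2 r (by omega)
      have b := r3 r le_rfl (by omega)
      omega
    omega
  · have : q ≤ r := by
      by_contra hc
      have a := q2 r (by omega)
      omega
    omega
  · have : q < r := by
      by_contra hc
      have b := r3 q (by omega) q1
      omega
    omega
  · have : q < r := by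
      by_contra hc
      rcases Nat.eq_or_lt_of_le (not_lt.1 hc) with h | h
      · subst h
        omega
      · have := hZ _ _ h q1
        omega
    omega

theorem rk_le {N : ℕ} {Z : ℕ → ℕ} (v : ℕ) : rk N Z v ≤ 2 * N := by
  unfold rk
  have := Nat.count_le (p := fun j => Z j < v) (n := N)
  have := Nat.count_le (p := fun j => Z j ≤ v) (n := N)
  omega

/-- Lower bound for the rank in `Z` of an element of rank `r` in `Y`. -/
def loS (N : ℕ) (Y Z : ℕ → ℕ) (r : ℕ) : ℕ :=
  if r % 2 = 1 then rk N Z (Y (r / 2)) else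
    if r / 2 = 0 then 0 else rk N Z (Y (r / 2 - 1)) + rk N Z (Y (r / 2 - 1)) % 2

/-- Upper bound for the rank in `Z` of an element of rank `r` in `Y`. -/
def hiS (N : ℕ) (Y Z : ℕ → ℕ) (r : ℕ) : ℕ :=
  if r % 2 = 1 then rk N Z (Y (r / 2)) else
    if 2 * N ≤ r then 2 * N else rk N Z (Y (r / 2)) - rk N Z (Y (r / 2)) % 2

theorem loS_even {N q : ℕ} {Y Z : ℕ → ℕ} : loS N Y Z (2 * q) =
    if q = 0 then 0 else rk N Z (Y (q - 1)) + rk N Z (Y (q - 1)) % 2 := by
  unfold loS
  rw [show 2 * q / 2 = q by omega, if_neg (show ¬ 2 * q % 2 = 1 by omega)]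

theorem hiS_even {N q : ℕ} {Y Z : ℕ → ℕ} : hiS N Y Z (2 * q) =
    if N ≤ q then 2 * N else rk N Z (Y q) - rk N Z (Y q) % 2 := by
  unfold hiS
  rw [show 2 * q / 2 = q by omega, if_neg (show ¬ 2 * q % 2 = 1 by omega)]
  by_cases h : N ≤ q
  · rw [if_pos h, if_pos (by omega)]
  · rw [if_neg h, if_neg (by omega)]

theorem loS_odd {N q : ℕ} {Y Z : ℕ → ℕ} : loS N Y Z (2 * q + 1) = rk N Z (Y q) := by
  unfold loS
  rw [show (2 * q + 1) / 2 = q by omega, if_pos (show (2 * q + 1) % 2 = 1 by omega)]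

theorem hiS_odd {N q : ℕ} {Y Z : ℕ → ℕ} : hiS N Y Z (2 * q + 1) = rk N Z (Y q) := by
  unfold hiS
  rw [show (2 * q + 1) / 2 = q by omega, if_pos (show (2 * q + 1) % 2 = 1 by omega)]

theorem law {N : ℕ} {Y Z : ℕ → ℕ} (hY : St N Y) (hZ : St N Z) (v : ℕ) :
    loS N Y Z (rk N Y v) ≤ rk N Z v ∧ rk N Z v ≤ hiS N Y Z (rk N Y v) := by
  have hle := rk_le (N := N) (Z := Z) v
  rcases rk_cases hY v with ⟨q, q1, q2, q3, q4⟩ | ⟨q, q1, q2, q4⟩
  · rw [q4, loS_even, hiS_even]
    constructor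
    · split_ifs with h
      · exact Nat.zero_le _
      · have := rk_mono hZ (q2 (q - 1) (by omega))
        omega
    · split_ifs with h
      · exact hle
      · have := rk_mono hZ (q3 q le_rfl (by omega))
        omega
  · rw [q4, loS_odd, hiS_odd, ← q2]
    exact ⟨le_rfl, le_rfl⟩

end Pool.Agent.Helper77.EX
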